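import Pool.Agent.Lib.MP_adc574_ag_TT.D0

/-! LEAF D1: functionals and bases; restriction to a stable subspace -/

set_option autoImplicit false

namespace MPadcTT

universe u v w

variable {k : Type u} [Field k] {V : Type v} [AddCommGroup V] [Module k V]

/-- Proof. A basis of `F`; the coordinates of `V ⧸ P` composed with the projection. -/
theorem exists_fun [FiniteDimensional k V] (F P : Submodule k V)
    (hd : Module.finrank k P + Module.finrank k F = Module.finrank k V) :
    ∃ (lam : Fin (Module.finrank k F) → V →ₗ[k] k) (f : Fin (Module.finrank k F) → V),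
      (∀ x, (∀ i, lam i x = 0) ↔ x ∈ P) ∧ LinearIndependent k f ∧ ∀ j, f j ∈ F := by
  have h1 : Module.finrank k (V ⧸ P) = Module.finrank k F := by
    have h2 := Submodule.finrank_quotient_add_finrank P
    omega
  let B := Module.finBasisOfFinrankEq k (V ⧸ P) h1
  let B' := Module.finBasis k F
  refine ⟨fun i => (B.coord i).comp P.mkQ, fun j => (B' j : V), ?_, ?_, fun j => (B' j).2⟩
  · intro x
    constructor
    · intro h
      have h2 : P.mkQ x = 0 := by
        refine B.ext_elem fun i => ?_
        rw [map_zero, Finsupp.zero_apply]
        exact h i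
      exact (Submodule.Quotient.mk_eq_zero P).1 h2
    · intro h i
      have h2 : P.mkQ x = 0 := (Submodule.Quotient.mk_eq_zero P).2 h
      rw [LinearMap.comp_apply, h2, map_zero]
  · exact B'.linearIndependent.map' F.subtype F.ker_subtype

/-- The connection on a stable subspace. -/
def Cn.res (C : Cn k V) (U : Submodule k V) (hU : ∀ D, ∀ x ∈ U, C.c D x ∈ U) : Cn k U where
  c D x := ⟨C.c D x, hU D x x.2⟩
  add D x y := Subtype.ext (C.add D x y)
  leib D a x := Subtype.ext (C.leib D a x)

/-- Proof. Induction on `w` for all `x`. -/
theorem dls_res {R : Type*} [AddCommMonoid R] {ι : Type*} [Fintype ι] [DecidableEq ι] (C : Cn k V) (U : Submodule k V)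
    (hU : ∀ D, ∀ x ∈ U, C.c D x ∈ U) (Ψ : (ι → V) → R) (w : List (Derivation ℤ k k)) (x : ι → U) :
    dls C w Ψ (fun j => (x j : V)) = dls (C.res U hU) w (fun y => Ψ fun j => (y j : V)) x := by
  induction w generalizing x with
  | nil => rfl
  | cons D w ih =>
    rw [dls_cons, dls_cons, dl_apply, dl_apply]
    refine Finset.sum_congr rfl fun j _ => ?_
    rw [← ih]
    have h1 : Function.update (fun j => (x j : V)) j (C.c D (x j)) =
        fun i => ((Function.update x j ((C.res U hU).c D (x j)) i : U) : V) := by
      funext i
      by_cases h : i = j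
      · subst h
        rw [Function.update_self, Function.update_self]
        rfl
      · rw [Function.update_of_ne h, Function.update_of_ne h]
    rw [h1]

end MPadcTT
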