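import Pool.Agent.Lib.MP_adc574_ag_TT.T7

/-! LEAF T8: transports which represent finitely many words -/

set_option autoImplicit false

namespace MPadcTT

universe u v w

variable {k : Type u} [Field k] [CharZero k] {H : ℕ → Type v} [∀ n, AddCommGroup (H n)] [∀ n, Module k (H n)]
  {C : ∀ n, Cn k (H n)} {mu : ∀ n m, H n →ₗ[k] H m →ₗ[k] H (n + m)} {β : ℕ → Type} [∀ n, Fintype (β n)]
  {b : ∀ n, Module.Basis (β n) k (H n)}

/-- Proof. Induction on the word `w`: `[]` is represented; for `D :: w` take the transport for `w` and `tr_step` with `D`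
(a power series ring over a domain is a domain). -/
theorem tr_word (hmu : ∀ D n m x y, (C (n + m)).c D (mu n m x y) = mu n m ((C n).c D x) y + mu n m x ((C m).c D y))
    {R : Type u} [CommRing R] [IsDomain R] [Algebra k R] (T : Tr C mu b R) (h : T.Rep [])
    (w : List (Derivation ℤ k k)) :
    ∃ (R' : Type u) (_ : CommRing R') (_ : IsDomain R') (_ : Algebra k R') (T' : Tr C mu b R'),
      T'.Rep w ∧ ∀ w', T.Rep w' → T'.Rep w' := by
  induction w with
  | nil => exact ⟨R, inferInstance, inferInstance, inferInstance, T, h, fun _ hw => hw⟩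
  | cons D w ih =>
    obtain ⟨R', i1, i2, i3, T', h1, h2⟩ := ih
    obtain ⟨T'', hT⟩ := tr_step hmu T' D
    exact ⟨PowerSeries R', inferInstance, inferInstance, inferInstance, T'', (hT w h1).2,
      fun w' hw' => (hT w' (h2 w' hw')).1⟩

/-- Proof. Induction on the list `S`, starting with `tr_zero`. -/
theorem exists_tr (hmu : ∀ D n m x y, (C (n + m)).c D (mu n m x y) = mu n m ((C n).c D x) y + mu n m x ((C m).c D y))
    (S : List (List (Derivation ℤ k k))) :
    ∃ (R : Type u) (_ : CommRing R) (_ : IsDomain R) (_ : Algebra k R) (T : Tr C mu b R),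
      T.Rep [] ∧ ∀ w ∈ S, T.Rep w := by
  induction S with
  | nil =>
    obtain ⟨T, hT⟩ := tr_zero (k := k) (C := C) (mu := mu) (b := b)
    exact ⟨k, inferInstance, inferInstance, inferInstance, T, hT, by simp⟩
  | cons w S ih =>
    obtain ⟨R, i1, i2, i3, T, h1, h2⟩ := ih
    obtain ⟨R', j1, j2, j3, T', hw, hT⟩ := tr_word hmu T h1 w
    refine ⟨R', j1, j2, j3, T', hT [] h1, ?_⟩
    intro v hv
    rcases List.mem_cons.1 hv with rfl | hv
    · exact hw
    · exact hT v (h2 v hv)

end MPadcTT
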