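import Pool.Agent.Lib.MP_adc574_ag_TT.V0

/-! LEAF V1: forms killed by `P` -/

set_option autoImplicit false

namespace MPadcTT

universe u v w

variable {k : Type u} [Field k] {V : Type v} [AddCommGroup V] [Module k V]

/-- `Dt lam` as an alternating form. -/
theorem exists_dtform {r : ℕ} (lam : Fin r → V →ₗ[k] k) : ∃ ω : V [⋀^Fin r]→ₗ[k] k, ∀ x, ω x = Dt lam x := by
  refine ⟨(Matrix.detRowAlternating (R := k) (n := Fin r)).compLinearMap (LinearMap.pi lam), fun x => ?_⟩
  unfold Dt
  rw [← Matrix.det_transpose]
  rfl

/-- Proof. `Dt lam f ≠ 0` for some `f`, so `V` is the sum of the span of `f` and of the common kernel `P'` of the `lam i`, which contains `P`; dimensions: `P' = P`. After a linear change of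
the `f j` we have `lam i (f j) = δ_ij` (the inverse matrix). An alternating form killed by `P` is determined by its value `c` at `f`: `x_j - ∑ lam i (x_j) f_i` is in `P`. So `ω = c Dt lam`, `c = ω f`. -/
theorem form_eq [FiniteDimensional k V] {r : ℕ} {P : Submodule k V} (hd : r + Module.finrank k P = Module.finrank k V)
    (lam : Fin r → V →ₗ[k] k) (hl : ∀ i, ∀ x ∈ P, lam i x = 0) (f : Fin r → V) (hf : Dt lam f ≠ 0)
    (ω : V [⋀^Fin r]→ₗ[k] k) (h0 : ω ≠ 0) (hP : ∀ x : Fin r → V, (∃ l, x l ∈ P) → ω x = 0) :
    ∃ c : k, c ≠ 0 ∧ ∀ x, ω x = c * Dt lam x := by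
  classical
  have hDt : ∀ x : Fin r → V, Dt lam x = (Pi.basisFun k (Fin r)).det (fun j => LinearMap.pi lam (x j)) := by
    intro x
    unfold Dt
    rw [Module.Basis.det_apply]
    congr 1
  have hsur : Function.Surjective (LinearMap.pi lam : V →ₗ[k] (Fin r → k)) := by
    have hli : LinearIndependent k (fun j => LinearMap.pi lam (f j)) := by
      have hu : IsUnit ((Pi.basisFun k (Fin r)).det (fun j => LinearMap.pi lam (f j))) := by
        rw [← hDt]
        exact isUnit_iff_ne_zero.2 hf
      exact ((Module.Basis.is_basis_iff_det (Pi.basisFun k (Fin r))).2 hu).1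
    have hsp : Submodule.span k (Set.range (fun j => LinearMap.pi lam (f j))) = ⊤ :=
      hli.span_eq_top_of_card_eq_finrank' (by simp)
    rw [← LinearMap.range_eq_top, eq_top_iff, ← hsp, Submodule.span_le]
    rintro _ ⟨j, rfl⟩
    exact ⟨f j, rfl⟩
  have hker : LinearMap.ker (LinearMap.pi lam : V →ₗ[k] (Fin r → k)) = P := by
    symm
    apply Submodule.eq_of_le_of_finrank_le
    · intro x hx
      rw [LinearMap.mem_ker]
      funext i
      exact hl i x hx
    · have h1 := LinearMap.finrank_range_add_finrank_ker (LinearMap.pi lam : V →ₗ[k] (Fin r → k))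
      rw [LinearMap.range_eq_top.2 hsur, finrank_top, Module.finrank_fin_fun] at h1
      omega
  obtain ⟨s, hs⟩ := (LinearMap.pi lam : V →ₗ[k] (Fin r → k)).exists_rightInverse_of_surjective (LinearMap.range_eq_top.2 hsur)
  have hmod : ∀ (x y : Fin r → V), (∀ l, x l - y l ∈ P) → ω x = ω y := by
    intro x y hxy
    have key : ∀ t : Finset (Fin r), ω (fun l => if l ∈ t then x l else y l) = ω y := by
      intro t
      induction t using Finset.induction_on with
      | empty => simp
      | insert a t ha ih =>
        rw [← ih]
        have e1 : (fun l => if l ∈ insert a t then x l else y l) =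
            Function.update (fun l => if l ∈ t then x l else y l) a ((x a - y a) + y a) := by
          funext l
          by_cases hl' : l = a
          · subst hl'
            simp
          · rw [Function.update_of_ne hl']
            simp [Finset.mem_insert, hl']
        have e2 : Function.update (fun l => if l ∈ t then x l else y l) a (y a) =
            (fun l => if l ∈ t then x l else y l) := by
          funext l
          by_cases hl' : l = a
          · subst hl'
            simp [ha]
          · rw [Function.update_of_ne hl']
        rw [e1, ω.map_update_add, e2, hP _ ⟨a, by rw [Function.update_self]; exact hxy a⟩, zero_add]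
    have h2 := key Finset.univ
    simpa using h2
  have hfac : ∀ x, ω x = (ω.compLinearMap s) (Pi.basisFun k (Fin r)) * Dt lam x := by
    intro x
    have h1 : ω x = (ω.compLinearMap s) (fun j => LinearMap.pi lam (x j)) := by
      rw [AlternatingMap.compLinearMap_apply]
      apply hmod
      intro l
      rw [← hker, LinearMap.mem_ker, map_sub, sub_eq_zero]
      exact (LinearMap.congr_fun hs (LinearMap.pi lam (x l))).symm
    rw [h1, AlternatingMap.eq_smul_basis_det (Pi.basisFun k (Fin r)) (ω.compLinearMap s), AlternatingMap.smul_apply,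
      smul_eq_mul, hDt]
    congr 1
    rw [AlternatingMap.smul_apply, smul_eq_mul, Module.Basis.det_self, mul_one]
  refine ⟨(ω.compLinearMap s) (Pi.basisFun k (Fin r)), ?_, hfac⟩
  intro hc
  apply h0
  ext x
  rw [hfac x, hc, zero_mul]
  rfl

/-- `dls` is linear in the function. Proof: induction on `w`. -/
theorem dls_smul {ι : Type} [Fintype ι] [DecidableEq ι] (C : Cn k V) (w : List (Derivation ℤ k k)) (c : k)
    (Ψ : (ι → V) → k) (x : ι → V) : dls C w (fun y => c * Ψ y) x = c * dls C w Ψ x := by
  induction w generalizing x with
  | nil => rfl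
  | cons D w ih =>
    rw [dls_cons, dls_cons, dl_apply, dl_apply, Finset.mul_sum]
    exact Finset.sum_congr rfl fun j _ => ih _

end MPadcTT
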