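import Pool.Agent.Lib.MP_adc574_ag_TT.U0
import Pool.Agent.Lib.MP_adc574_ag_TT.V1

/-! LEAF V2: general position from a transport which moves `F` off `P` -/

set_option autoImplicit false

namespace MPadcTT

universe u v w

variable {k : Type u} [Field k] {H : ℕ → Type v} [∀ n, AddCommGroup (H n)] [∀ n, Module k (H n)]
  {C : ∀ n, Cn k (H n)} {mu : ∀ n m, H n →ₗ[k] H m →ₗ[k] H (n + m)} {β : ℕ → Type} [∀ n, Fintype (β n)]
  {b : ∀ n, Module.Basis (β n) k (H n)} {R : Type w} [CommRing R] [Algebra k R]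

/-- `Opp` with the index set `Fin r`. Proof: reindex by an equivalence `ι ≃ Fin r` (`Fintype.equivFinOfCardEq`), `Matrix.det_submatrix_equiv_self`. -/
theorem opp_fin (T : Tr C mu b R) {n : ℕ} {F P : Submodule k (H n)} (h : Opp T F P) :
    ∃ (lam : Fin (Module.finrank k F) → H n →ₗ[k] k) (f : Fin (Module.finrank k F) → H n),
      (∀ i, ∀ x ∈ P, lam i x = 0) ∧ (∀ j, f j ∈ F) ∧ T.Ps lam f ≠ 0 := by
  obtain ⟨ι, _, _, lam, f, hl, hf, hc, hn⟩ := h
  have e : ι ≃ Fin (Module.finrank k F) := Fintype.equivFinOfCardEq hc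
  refine ⟨fun i => lam (e.symm i), fun j => f (e.symm j), fun i => hl _, fun j => hf _, ?_⟩
  have h1 : T.Ps (fun i => lam (e.symm i)) (fun j => f (e.symm j)) = T.Ps lam f :=
    Matrix.det_submatrix_equiv_self e.symm (Matrix.of fun i j => ev b (lam i) (T.T n (f j)))
  rw [h1]
  exact hn

/-- Proof. Otherwise all forms in `W` vanish at the `f` of `opp_fin`, so `dls (C n) w ω f = 0` for the given `ω` and all `w` (`hor_dls`). If `Dt lam` is not identically zero, `ω = c Dt lam` (`form_eq`, `dls_smul`), so `dls (C n) w (Dt lam) f = 0` for all `w`;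
the same if `Dt lam = 0` identically. Then `T.van` for the word `[]` says `T.Ps lam f = 0`. -/
theorem pos_of_opp (T : Tr C mu b R) {n : ℕ} {F P : Submodule k (H n)} (h : Opp T F P)
    (hd : Module.finrank k P + Module.finrank k F = Module.finrank k (H n))
    (W : Submodule k (H n [⋀^Fin (Module.finrank k F)]→ₗ[k] k)) (hW : Hor (C n) W)
    (hω : ∃ ω ∈ W, ω ≠ 0 ∧ ∀ x : Fin (Module.finrank k F) → H n, (∃ l, x l ∈ P) → ω x = 0) :
    ∃ ω ∈ W, ∃ x, (∀ l, x l ∈ F) ∧ ω x ≠ 0 := by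
  obtain ⟨lam, f, hl, hf, hn⟩ := opp_fin T h
  obtain ⟨ω, hωW, h0, hP⟩ := hω
  have : FiniteDimensional k (H n) := Module.Finite.of_basis (b n)
  by_contra hcon
  have hz : ∀ ω ∈ W, ω f = 0 := by
    intro ω hω
    by_contra h1
    exact hcon ⟨ω, hω, f, hf, h1⟩
  refine hn ?_
  refine T.van n (Fin (Module.finrank k F)) lam f ?_ []
  intro w
  by_cases hg : ∃ g, Dt lam g ≠ 0
  · obtain ⟨g, hg⟩ := hg
    obtain ⟨c, hc, he⟩ := form_eq (by rw [add_comm]; exact hd) lam hl g hg ω h0 hP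
    have h2 := hor_dls (C n) hW f hz w ω hωW
    have h3 : (fun y : Fin (Module.finrank k F) → H n => ω y) = fun y => c * Dt lam y := funext he
    rw [h3, dls_smul] at h2
    exact (mul_eq_zero.1 h2).resolve_left hc
  · have h3 : (Dt lam : (Fin (Module.finrank k F) → H n) → k) = fun y => 0 * Dt lam y := by
      funext y
      rw [zero_mul]
      by_contra h4
      exact hg ⟨y, h4⟩
    rw [h3, dls_smul, zero_mul]

end MPadcTT
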