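import Pool.Agent.Lib.MP_adc574_ag_TT.V1

/-! LEAF P1: pure parts -/

set_option autoImplicit false

namespace MPadcTT

universe u v w

variable {k : Type u} [Field k] {V : Type v} [AddCommGroup V] [Module k V] [FiniteDimensional k V]

/-- Proof. `ι` is empty, the word `[]`: `Dt` is the determinant of an empty matrix, `1`. -/
theorem hit_bot (C : Cn k V) (P : Submodule k V) : Hit C ⊥ P := by
  intro ι _ _ lam f _ _ _ hcard _
  refine ⟨[], ?_⟩
  rw [dls_nil]
  have h0 : Fintype.card ι = 0 := by
    rw [hcard, finrank_bot]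
  have : IsEmpty ι := Fintype.card_eq_zero_iff.1 h0
  unfold Dt
  rw [Matrix.det_isEmpty]
  exact one_ne_zero

/-- Proof. `finrank P = 0`, so the `lam i` have no common zero; `f` is a basis of `V`; `Dt lam f ≠ 0` (a vector `a` with `M a = 0` gives `∑ a_j f_j` in the common kernel). The word `[]`. -/
theorem hit_top (C : Cn k V) (P : Submodule k V) : Hit C ⊤ P := by
  intro ι _ _ lam f hlam hf _ hcard hsum
  refine ⟨[], ?_⟩
  rw [dls_nil]
  have hP : P = ⊥ := by
    rw [finrank_top] at hcard
    refine Submodule.finrank_eq_zero.1 ?_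
    omega
  unfold Dt
  intro hdet
  obtain ⟨v, hv0, hv⟩ := Matrix.exists_mulVec_eq_zero_iff.2 hdet
  have h1 : ∑ j, v j • f j ∈ P := by
    refine (hlam _).1 fun i => ?_
    rw [map_sum]
    have h2 := congrFun hv i
    rw [Matrix.mulVec, dotProduct] at h2
    refine Eq.trans (Finset.sum_congr rfl fun j _ => ?_) h2
    rw [map_smul, smul_eq_mul, Matrix.of_apply, mul_comm]
  rw [hP, Submodule.mem_bot] at h1
  exact hv0 (funext fun j => Fintype.linearIndependent_iff.1 hf v h1 j)

end MPadcTT
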