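import Pool.Agent.Lib.MP_adc574_ag_TT.V1
import Pool.Agent.Lib.MP_adc574_ag_GP.BigA

/-! LEAF P4: parts with big monodromy -/

set_option autoImplicit false

namespace MPadcTT

universe u v w

variable {k : Type u} [Field k] [CharZero k] {V : Type v} [AddCommGroup V] [Module k V] [FiniteDimensional k V]

omit [CharZero k] [FiniteDimensional k V] in
private theorem P4_dls {ι : Type} [Fintype ι] [DecidableEq ι] {r : ℕ} (e : ι ≃ Fin r) (C : Cn k V)
    (Ψ : (ι → V) → k) (w : List (Derivation ℤ k k)) : ∀ y : Fin r → V,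
      dls C w Ψ (fun i => y (e i)) = dls C w (fun z : Fin r → V => Ψ fun i => z (e i)) y := by
  induction w with
  | nil =>
    intro y
    rfl
  | cons D w ih =>
    intro y
    rw [dls_cons, dls_cons, dl_apply, dl_apply, ← Equiv.sum_comp e]
    refine Finset.sum_congr rfl fun j _ => ?_
    rw [← ih]
    congr 1
    funext i
    by_cases h : i = j
    · subst h
      rw [Function.update_self, Function.update_self]
    · rw [Function.update_of_ne h, Function.update_of_ne fun h' => h (e.injective h')]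

omit [CharZero k] [FiniteDimensional k V] in
private theorem P4_Dt {ι : Type} [Fintype ι] [DecidableEq ι] {r : ℕ} (e : ι ≃ Fin r)
    (lam : ι → V →ₗ[k] k) (y : Fin r → V) :
    Dt lam (fun i => y (e i)) = Dt (fun l => lam (e.symm l)) y := by
  unfold Dt
  rw [← Matrix.det_submatrix_equiv_self e.symm]
  congr 1
  ext i j
  show lam (e.symm i) (y (e (e.symm j))) = lam (e.symm i) (y j)
  rw [Equiv.apply_symm_apply]

/-- Proof. Reindex `ι` by `Fin r`, `r = finrank F`. Suppose `dls C w (Dt lam) f = 0` for all `w`. The horizontal space `W` of `exists_horf C f` contains the form `ω` with `ω x = Dt lam x` (`exists_dtform`). By `MPadcGP.exists_sl` (if `B = 0`) or `MPadcGP.exists_iso` there is `g` with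
determinant one, an isometry of `B`, with `g x ∈ P → x = 0` for `x` in `F`. By `hbig` the form `ω.compLinearMap g` is in `W`, so (word `[]`) `Dt lam (g f) = 0`: there is `a ≠ 0` with `lam i (g (∑ a_j f_j)) = 0` for all `i`
(`Matrix.exists_mulVec_eq_zero_iff`), so `g x ∈ P` for `x = ∑ a_j f_j ≠ 0` in `F`: contradiction. -/
theorem hit_big (C : Cn k V) (F P : Submodule k V) (B : V →ₗ[k] V →ₗ[k] k)
    (hB : (∀ x y, B x y = 0) ∨ (∀ x, (∀ y, B x y = 0) → x = 0) ∧
      ((∀ x, B x x = 0) ∨ (∀ x y, B y x = B x y) ∧ 2 * Module.finrank k F ≠ Module.finrank k V))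
    (hbig : ∀ (r : ℕ) (W : Submodule k (V [⋀^Fin r]→ₗ[k] k)), Hor C W → ∀ ω ∈ W, ∀ g : V →ₗ[k] V,
      LinearMap.det g = 1 → (∀ x y, B (g x) (g y) = B x y) → ω.compLinearMap g ∈ W) : Hit C F P := by
  classical
  intro ι _ _ lam f hlam hf hfF hc hd
  obtain ⟨e⟩ : Nonempty (ι ≃ Fin (Fintype.card ι)) := ⟨Fintype.equivFin ι⟩
  obtain ⟨r, hr⟩ : ∃ r, r = Fintype.card ι := ⟨_, rfl⟩
  rw [← hr] at e
  obtain ⟨y, hy⟩ : ∃ y : Fin r → V, y = fun l => f (e.symm l) := ⟨_, rfl⟩
  obtain ⟨mu, hmu⟩ : ∃ mu : Fin r → V →ₗ[k] k, mu = fun l => lam (e.symm l) := ⟨_, rfl⟩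
  have hfy : f = fun i => y (e i) := by
    funext i
    rw [hy]
    show f i = f (e.symm (e i))
    rw [Equiv.symm_apply_apply]
  have hDt : (fun z : Fin r → V => Dt lam fun i => z (e i)) = Dt mu := by
    funext z
    rw [P4_Dt e lam z, hmu]
  by_contra hcon
  push Not at hcon
  have h1 : ∀ w, dls C w (Dt mu) y = 0 := by
    intro w
    have h2 := hcon w
    rw [hfy, P4_dls e C (Dt lam) w y, hDt] at h2
    exact h2
  obtain ⟨W, hW, hW2⟩ := exists_horf C y
  obtain ⟨ω, hω⟩ := exists_dtform mu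
  have hωW : ω ∈ W := by
    rw [hW2]
    intro w
    have h2 : (fun z : Fin r → V => ω z) = Dt mu := funext hω
    rw [h2]
    exact h1 w
  have hd' : Module.finrank k F + Module.finrank k P = Module.finrank k V := by
    rw [← hc]
    exact hd
  obtain ⟨g, hg1, hg2, hg3⟩ : ∃ g : V →ₗ[k] V, (∀ x y, B (g x) (g y) = B x y) ∧
      LinearMap.det g = 1 ∧ ∀ x ∈ F, g x ∈ P → x = 0 := by
    rcases hB with hB | ⟨hnd, hB⟩
    · obtain ⟨g, h2, h3⟩ := MPadcGP.exists_sl F P hd'
      exact ⟨g, fun x y => by rw [hB, hB], h2, h3⟩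
    · exact MPadcGP.exists_iso B hnd F P hB hd'
  have h2 := (hW2 _).1 (hbig r W hW ω hωW g hg2 hg1) []
  rw [dls_nil] at h2
  have h3 : Dt mu (fun l => g (y l)) = 0 := by
    rw [← hω]
    exact h2
  unfold Dt at h3
  obtain ⟨a, ha, ha2⟩ := Matrix.exists_mulVec_eq_zero_iff.2 h3
  have h4 : ∀ l, mu l (g (∑ j, a j • y j)) = 0 := by
    intro l
    have h5 := congrFun ha2 l
    rw [map_sum, map_sum]
    rw [Matrix.mulVec, dotProduct] at h5
    rw [Pi.zero_apply] at h5
    rw [← h5]
    refine Finset.sum_congr rfl fun j _ => ?_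
    rw [map_smul, map_smul, smul_eq_mul, mul_comm]
    rfl
  have h5 : g (∑ j, a j • y j) ∈ P := by
    rw [← hlam]
    intro i
    have h6 := h4 (e i)
    rw [hmu] at h6
    have h7 : lam (e.symm (e i)) (g (∑ j, a j • y j)) = 0 := h6
    rw [Equiv.symm_apply_apply] at h7
    exact h7
  have hyF : ∀ j, y j ∈ F := fun j => by
    rw [hy]
    exact hfF _
  have h6 := hg3 _ (F.sum_mem fun j _ => F.smul_mem (a j) (hyF j)) h5
  have hyli : LinearIndependent k y := by
    rw [hy]
    exact hf.comp _ e.symm.injective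
  exact ha (funext (Fintype.linearIndependent_iff.1 hyli a h6))

end MPadcTT
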