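import Pool.Agent.Lib.MP_adc574_ag_GP.BrG
import Pool.Agent.Lib.MP_adc574_ag_GP.BigHdg

/-! LEAF F2: the standard properties of the literal Hodge filtration -/

set_option autoImplicit false

namespace MPadcTT

open OrdRed

universe u v w

private theorem F2_fin {k : Type u} [Field k] {n : ℕ} {I : Ideal (MvPolynomial (Fin n) k)} (hI : Homogeneous I)
    (hs : SmoothProj I) (m : ℕ) : FiniteDimensional k ((MPadcGP.prC I).HdR m) := by
  have hI' : MPadcGP.IsHomog I := hI
  have hs' : MPadcGP.IsSmoothProj I := hs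
  obtain ⟨a, ha, H⟩ := MPadcGP.exists_dat (A := k) hI' hs'
  obtain ⟨β, i1, i2, lev, z, h, hD⟩ := H k (RingHom.id k) (IsUnit.mk0 _ ha)
  have hid : MPadcGP.bI (RingHom.id k) I = I := by
    unfold MPadcGP.bI
    have h1 : (MvPolynomial.map (RingHom.id k) : MvPolynomial (Fin n) k →+* MvPolynomial (Fin n) k) =
        RingHom.id _ := by
      refine MvPolynomial.ringHom_ext (fun a => ?_) fun l => ?_
      · rw [MvPolynomial.map_C]
        rfl
      · rw [MvPolynomial.map_X]
        rfl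
    rw [h1, Ideal.map_id]
  have h2 : ∀ I' : Ideal (MvPolynomial (Fin n) k), I' = I → FiniteDimensional k ((MPadcGP.prC I').HdR m) →
      FiniteDimensional k ((MPadcGP.prC I).HdR m) := by
    rintro _ rfl h
    exact h
  exact h2 _ hid (hD.self.finite m)

private theorem F2_cov {k : Type u} [Field k] {n : ℕ} (X : MPadcGP.CovD.{u, v} k n)
    (hfin : ∀ m, FiniteDimensional k (X.HdR m)) : (∀ m, FiniteDimensional k ((cov X).DR m)) ∧
    ∃ mu : ∀ m m', (cov X).DR m →ₗ[k] (cov X).DR m' →ₗ[k] (cov X).DR (m + m'),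
      (∀ m m' x y z, (cov X).prod m m' x y z ↔ z = mu m m' x y) ∧
      (∀ m i, (cov X).hodge m (i + 1) ≤ (cov X).hodge m i) ∧ (∀ m, (cov X).hodge m 0 = ⊤) ∧
      (∀ m i, m < i → (cov X).hodge m i = ⊥) ∧
      ∀ m m' i i', ∀ x ∈ (cov X).hodge m i, ∀ y ∈ (cov X).hodge m' i', mu m m' x y ∈ (cov X).hodge (m + m') (i + i') := by
  have hH := MPadcGP.CovD.isHodge X
  obtain ⟨μ, hμ⟩ := hH.bil
  let mu : ∀ m m', (cov X).DR m →ₗ[k] (cov X).DR m' →ₗ[k] (cov X).DR (m + m') := fun m m' =>
    LinearMap.mk₂ k (fun x y => cmp X (m + m') (μ m m' ((cmp X m).symm x) ((cmp X m').symm y)))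
      (fun x x' y => by rw [map_add, map_add, LinearMap.add_apply, map_add])
      (fun r x y => by rw [map_smul, map_smul, LinearMap.smul_apply, map_smul])
      (fun x y y' => by rw [map_add, map_add, map_add])
      (fun r x y => by rw [map_smul, map_smul, map_smul])
  have hmu : ∀ m m' x y, mu m m' (cmp X m x) (cmp X m' y) = cmp X (m + m') (μ m m' x y) := by
    intro m m' x y
    show cmp X (m + m') (μ m m' ((cmp X m).symm (cmp X m x)) ((cmp X m').symm (cmp X m' y))) = _
    rw [LinearEquiv.symm_apply_apply, LinearEquiv.symm_apply_apply]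
  refine ⟨fun m => ?_, mu, fun m m' x y z => ?_, fun m i x hx => ?_, fun m => ?_, fun m i hmi => ?_,
    fun m m' i i' x hx y hy => ?_⟩
  · have := hfin m
    exact Module.Finite.equiv (cmp X m)
  · obtain ⟨x, rfl⟩ := (cmp X m).surjective x
    obtain ⟨y, rfl⟩ := (cmp X m').surjective y
    obtain ⟨z, rfl⟩ := (cmp X (m + m')).surjective z
    rw [prod_iff, hmu]
    have h1 := hμ m m' x y z
    constructor
    · intro h
      rw [h1.1 h]
    · intro h
      exact h1.2 ((cmp X (m + m')).injective h).symm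
  · obtain ⟨x, rfl⟩ := (cmp X m).surjective x
    rw [hodge_iff] at hx ⊢
    exact hH.anti m i hx
  · rw [eq_top_iff]
    intro x _
    obtain ⟨x, rfl⟩ := (cmp X m).surjective x
    rw [hodge_iff]
    have h1 : X.Fil m 0 = ⊤ := hH.zero m
    rw [h1]
    trivial
  · rw [eq_bot_iff]
    intro x hx
    obtain ⟨x, rfl⟩ := (cmp X m).surjective x
    rw [hodge_iff] at hx
    have h1 : X.Fil m i = ⊥ := hH.top m i hmi
    rw [h1, Submodule.mem_bot] at hx
    rw [hx, map_zero]
    exact Submodule.zero_mem _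
  · obtain ⟨x, rfl⟩ := (cmp X m).surjective x
    obtain ⟨y, rfl⟩ := (cmp X m').surjective y
    rw [hodge_iff] at hx hy
    rw [hmu, hodge_iff]
    exact hH.mul m m' i i' x hx y hy _ ((hμ m m' x y _).2 rfl)

/-- Proof. `proj I` is `cov (prC I)` (as used in BrG, F3, F4 of EN), `cmp` the comparison isomorphism of the cohomology; `hodge_iff`, `prod_iff`; `CovD.isHodge`; `finite_HdR`. -/
theorem lit_facts {k : Type u} [Field k] {n : ℕ} {I : Ideal (MvPolynomial (Fin n) k)} (hI : Homogeneous I)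
    (hs : SmoothProj I) : (∀ m, FiniteDimensional k ((proj I).DR m)) ∧
    ∃ mu : ∀ m m', (proj I).DR m →ₗ[k] (proj I).DR m' →ₗ[k] (proj I).DR (m + m'),
      (∀ m m' x y z, (proj I).prod m m' x y z ↔ z = mu m m' x y) ∧
      (∀ m i, (proj I).hodge m (i + 1) ≤ (proj I).hodge m i) ∧ (∀ m, (proj I).hodge m 0 = ⊤) ∧
      (∀ m i, m < i → (proj I).hodge m i = ⊥) ∧
      ∀ m m' i i', ∀ x ∈ (proj I).hodge m i, ∀ y ∈ (proj I).hodge m' i', mu m m' x y ∈ (proj I).hodge (m + m') (i + i') := by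
  have h1 := F2_cov (MPadcGP.prC I) (F2_fin hI hs)
  rw [proj_eq]
  exact h1

end MPadcTT
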