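import Mathlib

/-!
# Taylor transport: definitions

`k` is a field of characteristic `0`, `V` a vector space with a connection `c D x` (`Cn`): additive in `x`, with the Leibniz
rule, for every derivation `D` of `k` (no condition in `D`).

* `dl c Ψ x = ∑ j, Ψ (x with c (x j) at j)` for a function `Ψ` of tuples `x`; `dls C u Ψ` its iterate for a word `u` of
  derivations: `dls C (D :: u) Ψ = dl (C.c D) (dls C u Ψ)`.
* `Dt λ x = det (λ i (x j))`.
* `Tr`: a transport with values in a `k`-algebra `R`; `Rep T u`: the word `u` is represented by `T`.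
* `Hit C F P`: for some word `u`, `dls C u (Dt λ) f ≠ 0`, `λ` the functionals which vanish on `P`, `f` a basis of `F`.
-/

set_option autoImplicit false

namespace MPadcTT

open Matrix

universe u v w

section ops

variable {V : Type*} {R : Type*} [AddCommMonoid R] {ι : Type*} [Fintype ι] [DecidableEq ι]

/-- `∑ j, Ψ (x with c (x j) at j)`. -/
def dl (c : V → V) (Ψ : (ι → V) → R) : (ι → V) → R := fun x => ∑ j, Ψ (Function.update x j (c (x j)))

theorem dl_apply (c : V → V) (Ψ : (ι → V) → R) (x : ι → V) :
    dl c Ψ x = ∑ j, Ψ (Function.update x j (c (x j))) := rfl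

end ops

/-- A connection on the vector space `V` over `k`. -/
structure Cn (k : Type u) [Field k] (V : Type v) [AddCommGroup V] [Module k V] where
  /-- the derivative of `x` in the direction `D` -/
  c : Derivation ℤ k k → V → V
  add : ∀ D x y, c D (x + y) = c D x + c D y
  leib : ∀ D (a : k) x, c D (a • x) = a • c D x + D a • x

section

variable {k : Type u} [Field k] {V : Type v} [AddCommGroup V] [Module k V]

theorem Cn.zero (C : Cn k V) (D : Derivation ℤ k k) : C.c D 0 = 0 := by
  have h := C.add D 0 0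
  rw [add_zero] at h
  exact left_eq_add.1 h

/-- `C.c D` as an additive map. -/
def Cn.hom (C : Cn k V) (D : Derivation ℤ k k) : V →+ V where
  toFun := C.c D
  map_zero' := C.zero D
  map_add' := C.add D

variable {R : Type*} [AddCommMonoid R] {ι : Type*} [Fintype ι] [DecidableEq ι]

/-- The iterates of `dl` for a word of derivations. -/
def dls (C : Cn k V) (w : List (Derivation ℤ k k)) (Ψ : (ι → V) → R) : (ι → V) → R :=
  w.foldr (fun D Φ => dl (C.c D) Φ) Ψ

theorem dls_nil (C : Cn k V) (Ψ : (ι → V) → R) : dls C [] Ψ = Ψ := rfl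

theorem dls_cons (C : Cn k V) (D : Derivation ℤ k k) (w : List (Derivation ℤ k k)) (Ψ : (ι → V) → R) :
    dls C (D :: w) Ψ = dl (C.c D) (dls C w Ψ) := rfl

theorem dls_append (C : Cn k V) (w w' : List (Derivation ℤ k k)) (Ψ : (ι → V) → R) :
    dls C (w ++ w') Ψ = dls C w (dls C w' Ψ) := by
  unfold dls
  rw [List.foldr_append]

/-- `det (λ i (x j))` -/
def Dt (lam : ι → V →ₗ[k] k) (x : ι → V) : k := (Matrix.of fun i j => lam i (x j)).det

/-- For some word the iterated derivative of `Dt lam` at a basis `f` of `F` is not zero, if the `lam i` are a basis of the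
functionals on `V` which vanish on `P`. -/
def Hit (C : Cn k V) (F P : Submodule k V) : Prop :=
  ∀ (ι : Type) [Fintype ι] [DecidableEq ι] (lam : ι → V →ₗ[k] k) (f : ι → V),
    (∀ x, (∀ i, lam i x = 0) ↔ x ∈ P) → LinearIndependent k f → (∀ j, f j ∈ F) →
    Fintype.card ι = Module.finrank k F → Fintype.card ι + Module.finrank k P = Module.finrank k V →
      ∃ w : List (Derivation ℤ k k), dls C w (Dt lam) f ≠ 0

end

section tr

variable {k : Type u} [Field k] {H : ℕ → Type v} [∀ n, AddCommGroup (H n)] [∀ n, Module k (H n)]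
  (C : ∀ n, Cn k (H n)) (mu : ∀ n m, H n →ₗ[k] H m →ₗ[k] H (n + m)) {β : ℕ → Type} [∀ n, Fintype (β n)]
  (b : ∀ n, Module.Basis (β n) k (H n))

/-- The value of the functional `lam` at the vector with the coordinates `y`. -/
noncomputable def ev {R : Type w} [CommRing R] [Algebra k R] {n : ℕ} (lam : H n →ₗ[k] k) (y : β n → R) : R :=
  ∑ i, algebraMap k R (lam (b n i)) * y i

/-- A transport with values in `R`: a map `T` from `H n` to `H n ⊗ R` (in coordinates), semilinear with respect to a
homomorphism `σ : k → R`, multiplicative, with a homomorphism `ε : R → k` such that `ε T = id`, and such that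
`det (λ i (T (x j)))` is a sort of combination of the `dls C w (Dt λ) x` (`van`). -/
structure Tr (R : Type w) [CommRing R] [Algebra k R] where
  σ : k →+* R
  T : ∀ n, H n → β n → R
  add : ∀ n x y i, T n (x + y) i = T n x i + T n y i
  smul : ∀ n (a : k) x i, T n (a • x) i = σ a * T n x i
  mul : ∀ n m x y c, T (n + m) (mu n m x y) c =
    ∑ i, ∑ j, algebraMap k R ((b (n + m)).repr (mu n m (b n i) (b m j)) c) * (T n x i * T m y j)
  ε : R →+* k
  εa : ∀ a, ε (algebraMap k R a) = a
  εT : ∀ n x i, ε (T n x i) = (b n).repr x i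
  van : ∀ (n : ℕ) (ι : Type) [Fintype ι] [DecidableEq ι] (lam : ι → H n →ₗ[k] k) (x : ι → H n),
    (∀ w, dls (C n) w (Dt lam) x = 0) →
      ∀ w, dls (C n) w (fun x : ι → H n => (Matrix.of fun i j => ev b (lam i) (T n (x j))).det) x = 0

variable {C mu b}

/-- `det (λ i (T (x j)))` -/
noncomputable def Tr.Ps {R : Type w} [CommRing R] [Algebra k R] (T : Tr C mu b R) {n : ℕ} {ι : Type} [Fintype ι] [DecidableEq ι]
    (lam : ι → H n →ₗ[k] k) (x : ι → H n) : R := (Matrix.of fun i j => ev b (lam i) (T.T n (x j))).det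

/-- The word `w` is represented by `T`. -/
def Tr.Rep {R : Type w} [CommRing R] [Algebra k R] (T : Tr C mu b R) (w : List (Derivation ℤ k k)) : Prop :=
  ∃ κ : R →+ k, ∀ (n : ℕ) (ι : Type) [Fintype ι] [DecidableEq ι] (lam : ι → H n →ₗ[k] k) (x : ι → H n),
    κ (T.Ps lam x) = dls (C n) w (Dt lam) x

end tr

end MPadcTT
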