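import Pool.Agent.Lib.MP_adc574_ag_TT.N5
import Pool.Agent.Lib.MP_adc574_ag_TT.D0
import Pool.Agent.Lib.MP_adc574_ag_GP.Bridge
import Pool.Agent.Lib.MP_adc574_ag_GP.Lifts

/-!
# Leaf N9: the Gauss–Manin connection of a smooth projective scheme as an operator

`exists_conn`: the relation `X.nabla m D x y` of the definition (absolute forms, Katz–Oda) is `y = (C m).c D x` for connections `C m` on
the `H^m_dR(X)`, which satisfy the Leibniz rule for products.
-/

set_option autoImplicit false

namespace MPadcTT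

open MPadcGP OrdRed

universe u

private theorem N9_cov {k : Type u} [Field k] {n : ℕ} (X : CovD.{u, u} k n) (hV : ∀ D : Derivation ℤ k k, Nonempty (Lft X D)) :
    ∃ C : ∀ m, Cn k ((cov X).DR m), (∀ m D x y, (cov X).nabla m D x y ↔ y = (C m).c D x) ∧
      ∀ D m m' x y z, (cov X).prod m m' x y z → ∀ z1 z2, (cov X).prod m m' ((C m).c D x) y z1 →
        (cov X).prod m m' x ((C m').c D y) z2 → (C (m + m')).c D z = z1 + z2 := by
  choose f h1 h2 h3 using fun (m : ℕ) (D : Derivation ℤ k k) => exists_op (hV D).some m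
  refine ⟨fun m => ⟨f m, h2 m, h3 m⟩, h1, fun D m m' x y z hz z1 z2 hz1 hz2 => ?_⟩
  exact ((h1 (m + m') D _ _).1 (nabla_prod ((h1 m D x _).2 rfl) ((h1 m' D y _).2 rfl) hz hz1 hz2)).symm

/-- The connection of the definition is an operator, with the Leibniz rule for products. -/
theorem exists_conn {k : Type u} [Field k] {n : ℕ} {I : Ideal (MvPolynomial (Fin n) k)} (hI : Homogeneous I)
    (hs : SmoothProj I) :
    ∃ C : ∀ m, Cn k ((proj I).DR m), (∀ m D x y, (proj I).nabla m D x y ↔ y = (C m).c D x) ∧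
      ∀ D m m' x y z, (proj I).prod m m' x y z → ∀ z1 z2, (proj I).prod m m' ((C m).c D x) y z1 →
        (proj I).prod m m' x ((C m').c D y) z2 → (C (m + m')).c D z = z1 + z2 := by
  rw [proj_eq]
  exact N9_cov (prC I) fun D => exists_lft hI hs D

end MPadcTT
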