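import Pool.Agent.Lib.MP_adc574_ag_TT.N2

/-!
# Leaf N3: the Gauss–Manin connection of the definition is a function

`nabla_total`: if `D` lifts to the cover, then for every class `x` there is `y` with `y = ∇_D x`, in the sense of the definition by
absolute forms (`exists_eta`; `hV_Dt`, `hV_eta`: the cochain `∑ D (a_i) η_i` is a cocycle). `nabla_iff`: the relation is the relation
`gaussManin` given by lifts. `exists_op`: it is an additive map with the Leibniz rule.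
-/

set_option autoImplicit false

namespace MPadcTT

open MPadcGP OrdRed

universe u v

variable {A : Type u} [CommRing A] {n : ℕ} {X : CovD.{u, v} A n} {D : Derivation ℤ A A}

theorem nabla_total (V : Lft X D) {m : ℕ} (x : X.HdR m) : ∃ y, (cov X).nabla m D (cmp X m x) (cmp X m y) := by
  obtain ⟨c, rfl⟩ := CovD.cl_surjective m x
  obtain ⟨C, r, a, η, hC, hη, hCc, hd⟩ := exists_eta c.2
  have h1 := hV_Dt V hC.1
  have h2 := hV_eta V a η (fun i => (hη i).1) hd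
  have hs : (∑ i, D (a i) • rlC X (η i)) ∈ X.Zc m := by
    have h3 : (∑ i, D (a i) • rlC X (η i)) = V.Gm (c : X.Ch) - X.Dt (hV V C) := by rw [← h2, h1, hCc]
    rw [h3]
    refine Submodule.sub_mem _ (V.Gm_mem_Zc c.2) ?_
    cases m with
    | zero =>
      rw [hV_zero V hC, map_zero]
      exact Submodule.zero_mem _
    | succ m => exact ⟨CovD.Dt_mem (hV_mem V hC), CovD.Dt_Dt _⟩
  refine ⟨X.cl m ⟨_, hs⟩, C, r, a, η, deg_iff.2 hC, fun i => deg_iff.2 (hη i), ?_, fun J => ?_, ?_⟩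
  · exact hasClass_iff.2 ⟨c, hCc.symm.trans (rel_eq C).symm, rfl⟩
  · exact (congrFun (tot_eq (X := absD X) C) J).trans (hd J)
  · refine hasClass_iff.2 ⟨⟨_, hs⟩, ?_, rfl⟩
    change (∑ i, D (a i) • rlC X (η i) : X.Ch) = ∑ i, D (a i) • ((cov X).rel (η i) : X.Ch)
    exact Finset.sum_congr rfl fun i _ => congrArg (fun z : X.Ch => D (a i) • z) (rel_eq (η i)).symm

theorem gaussManin_unique {m : ℕ} {x y y' : X.HdR m} (h : X.gaussManin m D x y) (h' : X.gaussManin m D x y') :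
    y = y' := by
  obtain ⟨V, c, c', hc, rfl, rfl⟩ := h
  obtain ⟨V₁, c₁, c₁', hc₁, hx, rfl⟩ := h'
  rw [CovD.cl_eq] at hx ⊢
  have e : (c' : X.Ch) - (c₁' : X.Ch) = -(V.Gm ((c₁ : X.Ch) - (c : X.Ch))) +
      (V.Gm (c₁ : X.Ch) - V₁.Gm (c₁ : X.Ch)) := by
    rw [← hc, ← hc₁, V.Gm_sub]
    abel
  rw [e]
  exact Submodule.add_mem _ (Submodule.neg_mem _ (V.Gm_mem_Bc hx)) (Lft.Gm_sub_mem_Bc V V₁ c₁.2)

/-- The relation of the definition is the relation given by lifts. -/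
theorem nabla_iff (V : Lft X D) {m : ℕ} {x y : X.HdR m} :
    (cov X).nabla m D (cmp X m x) (cmp X m y) ↔ X.gaussManin m D x y := by
  refine ⟨nabla_imp V, fun h => ?_⟩
  obtain ⟨y', hy'⟩ := nabla_total V x
  rwa [gaussManin_unique h (nabla_imp V hy')]

/-- The connection as an operator. -/
theorem exists_op (V : Lft X D) (m : ℕ) : ∃ f : (cov X).DR m → (cov X).DR m,
    (∀ x y, (cov X).nabla m D x y ↔ y = f x) ∧ (∀ x y, f (x + y) = f x + f y) ∧
      ∀ (a : A) x, f (a • x) = a • f x + D a • x := by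
  have h1 : ∀ x : (cov X).DR m, ∃ y, (cov X).nabla m D x y := by
    intro x
    obtain ⟨x, rfl⟩ := (cmp X m).surjective x
    obtain ⟨y, hy⟩ := nabla_total V x
    exact ⟨_, hy⟩
  choose f hf using h1
  have h2 : ∀ x y, (cov X).nabla m D x y → y = f x := by
    intro x y h
    have h3 := hf x
    generalize f x = y' at h3 ⊢
    obtain ⟨x, rfl⟩ := (cmp X m).surjective x
    obtain ⟨y, rfl⟩ := (cmp X m).surjective y
    obtain ⟨y', rfl⟩ := (cmp X m).surjective y'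
    rw [gaussManin_unique (nabla_imp V h) (nabla_imp V h3)]
  have h4 : ∀ (c c' : ↥(X.Zc m)), V.Gm (c : X.Ch) = (c' : X.Ch) →
      f (cmp X m (X.cl m c)) = cmp X m (X.cl m c') := fun c c' h =>
    (h2 _ _ ((nabla_iff V).2 ⟨V, c, c', h, rfl, rfl⟩)).symm
  refine ⟨f, fun x y => ⟨h2 x y, fun h => h ▸ hf x⟩, fun x y => ?_, fun a x => ?_⟩
  · obtain ⟨x, rfl⟩ := (cmp X m).surjective x
    obtain ⟨y, rfl⟩ := (cmp X m).surjective y
    obtain ⟨c, rfl⟩ := CovD.cl_surjective m x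
    obtain ⟨d, rfl⟩ := CovD.cl_surjective m y
    rw [← map_add, ← map_add, h4 (c + d) (⟨V.Gm (c : X.Ch), V.Gm_mem_Zc c.2⟩ + ⟨V.Gm (d : X.Ch), V.Gm_mem_Zc d.2⟩)
      (V.Gm_add _ _), map_add, map_add, h4 c ⟨_, V.Gm_mem_Zc c.2⟩ rfl, h4 d ⟨_, V.Gm_mem_Zc d.2⟩ rfl]
  · obtain ⟨x, rfl⟩ := (cmp X m).surjective x
    obtain ⟨c, rfl⟩ := CovD.cl_surjective m x
    rw [← map_smul, ← map_smul, h4 (a • c) (a • ⟨V.Gm (c : X.Ch), V.Gm_mem_Zc c.2⟩ + D a • c)
      (Lft.Gm_smul a c.2.1.1), map_add, map_add, h4 c ⟨_, V.Gm_mem_Zc c.2⟩ rfl, map_smul, map_smul, map_smul, map_smul]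

end MPadcTT
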