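import Pool.Agent.Lib.MP_adc574_ag_GP.BrD
import Pool.Agent.Lib.MP_adc574_ag_GP.GlGen
import Pool.Agent.Lib.MP_adc574_ag_GP.Rep

/-!
# Leaf N1: the kernel of the map from absolute to relative forms

`N1_ideal A R`: the left ideal of the absolute forms generated by the `d a`, `a` in the base; it is two sided. `rl_ker`: it contains
the kernel of `rl A` (the inverse map `Fm A R → Fm ℤ R ⧸ N1_ideal` exists by the universal property). `rl_ker_deg`: an absolute form
of degree `q + 1` in the kernel is a sum of products `d a_i ∧ η_i` with `η_i` of degree `q`. `rl_ker_zero`: degree `0`.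
`rl_surj`: every form of degree `q` lifts.
-/

set_option autoImplicit false

namespace MPadcTT

open MPadcGP

universe u v

variable (A : Type u) {R : Type v} [CommRing A] [CommRing R] [Algebra A R]

/-- The left ideal generated by the differentials of the constants. -/
private noncomputable def N1_ideal (A : Type u) (R : Type v) [CommRing A] [CommRing R] [Algebra A R] : Ideal (Fm ℤ R) :=
  Ideal.span {z | ∃ a : A, z = df ℤ (algebraMap A R a)}

private theorem N1_two (z y : Fm ℤ R) (hz : z ∈ N1_ideal A R) : z * y ∈ N1_ideal A R := by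
  unfold N1_ideal at hz
  induction hz using Submodule.span_induction with
  | mem z hz =>
    obtain ⟨a, rfl⟩ := hz
    rw [df_comm]
    exact Ideal.mul_mem_left _ _ (Ideal.subset_span ⟨a, rfl⟩)
  | zero =>
    rw [zero_mul]
    exact Ideal.zero_mem _
  | add z w _ _ hz hw =>
    rw [add_mul]
    exact Ideal.add_mem _ hz hw
  | smul r z _ hz =>
    rw [smul_eq_mul, mul_assoc]
    exact Ideal.mul_mem_left _ _ hz

private instance N1_inst : (N1_ideal A R).IsTwoSided := ⟨fun y h => N1_two A _ y h⟩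

private theorem N1_mem {e : Fm ℤ R} (h : rl A e = 0) : e ∈ N1_ideal A R := by
  have h1 : ∀ a : A, (Ideal.Quotient.mk (N1_ideal A R)) (df ℤ (algebraMap A R a)) = 0 := fun a =>
    Ideal.Quotient.eq_zero_iff_mem.2 (Ideal.subset_span ⟨a, rfl⟩)
  have h2 : ∀ (r : R) (x : Fm ℤ R ⧸ N1_ideal A R), (Ideal.Quotient.mk (N1_ideal A R)).comp (fz ℤ) r * x =
      x * (Ideal.Quotient.mk (N1_ideal A R)).comp (fz ℤ) r := by
    intro r x
    obtain ⟨x, rfl⟩ := Ideal.Quotient.mk_surjective x
    change Ideal.Quotient.mk (N1_ideal A R) (fz ℤ r) * Ideal.Quotient.mk (N1_ideal A R) x =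
      Ideal.Quotient.mk (N1_ideal A R) x * Ideal.Quotient.mk (N1_ideal A R) (fz ℤ r)
    rw [← map_mul, ← map_mul, fz_comm]
  let g : R →+ Fm ℤ R ⧸ N1_ideal A R :=
    { toFun := fun t => Ideal.Quotient.mk (N1_ideal A R) (df ℤ t)
      map_zero' := by rw [df_zero, map_zero]
      map_add' := fun s t => by rw [df_add, map_add] }
  obtain ⟨F, hF1, hF2⟩ := exists_hom (A := A) ((Ideal.Quotient.mk (N1_ideal A R)).comp (fz ℤ)) h2 g
    (fun r t => by
      change Ideal.Quotient.mk (N1_ideal A R) (df ℤ (r * t)) = Ideal.Quotient.mk (N1_ideal A R) (fz ℤ r) *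
        Ideal.Quotient.mk (N1_ideal A R) (df ℤ t) + Ideal.Quotient.mk (N1_ideal A R) (fz ℤ t) *
        Ideal.Quotient.mk (N1_ideal A R) (df ℤ r)
      rw [df_mul, map_add, map_mul, map_mul]) h1
    (fun s t => by
      change Ideal.Quotient.mk (N1_ideal A R) (df ℤ s) * Ideal.Quotient.mk (N1_ideal A R) (df ℤ t) +
        Ideal.Quotient.mk (N1_ideal A R) (df ℤ t) * Ideal.Quotient.mk (N1_ideal A R) (df ℤ s) = 0
      rw [← map_mul, ← map_mul, ← map_add, df_swap, neg_add_cancel, map_zero])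
    (fun s => by
      change Ideal.Quotient.mk (N1_ideal A R) (df ℤ s) * Ideal.Quotient.mk (N1_ideal A R) (df ℤ s) = 0
      rw [← map_mul, df_sq, map_zero])
  have h3 : F.comp (rl A) = Ideal.Quotient.mk (N1_ideal A R) := by
    refine hom_ext' (fun r => ?_) fun t => ?_
    · rw [RingHom.comp_apply, rl_fz, hF1]
      rfl
    · rw [RingHom.comp_apply, rl_df, hF2]
      rfl
  have h4 : Ideal.Quotient.mk (N1_ideal A R) e = 0 := by
    rw [← h3, RingHom.comp_apply, h, map_zero]
  exact Ideal.Quotient.eq_zero_iff_mem.1 h4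

private theorem N1_comm (t : R) (r : Fm ℤ R) : r * df ℤ t = df ℤ t * inv ℤ r := by
  rw [df_comm, MPadcGP.inv_inv]

private theorem N1_smul (r z : Fm ℤ R)
    (hz : z ∈ AddSubgroup.closure {z : Fm ℤ R | ∃ (a : A) (η : Fm ℤ R), z = df ℤ (algebraMap A R a) * η}) :
    r * z ∈ AddSubgroup.closure {z : Fm ℤ R | ∃ (a : A) (η : Fm ℤ R), z = df ℤ (algebraMap A R a) * η} := by
  induction hz using AddSubgroup.closure_induction with
  | mem z hz =>
    obtain ⟨a, η, rfl⟩ := hz
    refine AddSubgroup.subset_closure ⟨a, inv ℤ r * η, ?_⟩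
    rw [← mul_assoc, N1_comm, mul_assoc]
  | zero =>
    rw [mul_zero]
    exact AddSubgroup.zero_mem _
  | add z w _ _ hz hw =>
    rw [mul_add]
    exact AddSubgroup.add_mem _ hz hw
  | neg z _ hz =>
    rw [mul_neg]
    exact AddSubgroup.neg_mem _ hz

private theorem N1_cl {e : Fm ℤ R} (h : e ∈ N1_ideal A R) :
    e ∈ AddSubgroup.closure {z : Fm ℤ R | ∃ (a : A) (η : Fm ℤ R), z = df ℤ (algebraMap A R a) * η} := by
  unfold N1_ideal at h
  induction h using Submodule.span_induction with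
  | mem z hz =>
    obtain ⟨a, rfl⟩ := hz
    exact AddSubgroup.subset_closure ⟨a, 1, (mul_one _).symm⟩
  | zero => exact AddSubgroup.zero_mem _
  | add z w _ _ hz hw => exact AddSubgroup.add_mem _ hz hw
  | smul r z _ hz => exact N1_smul A r z hz

private theorem N1_pj (t : R) (η : Fm ℤ R) (q : ℕ) : pj ℤ (q + 1) (df ℤ t * η) = df ℤ t * pj ℤ q η := by
  induction η using homog_ind with
  | h0 => rw [mul_zero, map_zero, map_zero, mul_zero]
  | h1 r e he =>
    have h2 : df ℤ t * e ∈ Fd ℤ R (r + 1) := by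
      rw [add_comm]
      exact fd_mul (df_mem t) he
    rcases eq_or_ne r q with rfl | h
    · rw [pj_of_mem he, pj_of_mem h2]
    · rw [pj_of_ne he h, pj_of_ne h2 (fun h' => h (Nat.succ_injective h')), mul_zero]
  | h2 a b ha hb => rw [mul_add, map_add, map_add, ha, hb, mul_add]

private theorem N1_fin {q : ℕ} {e : Fm ℤ R}
    (h : e ∈ AddSubgroup.closure {z : Fm ℤ R | ∃ (a : A) (η : Fm ℤ R), η ∈ Fd ℤ R q ∧
      z = df ℤ (algebraMap A R a) * η}) :
    ∃ (r : ℕ) (a : Fin r → A) (η : Fin r → Fm ℤ R), (∀ i, η i ∈ Fd ℤ R q) ∧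
      e = ∑ i, df ℤ (algebraMap A R (a i)) * η i := by
  induction h using AddSubgroup.closure_induction with
  | mem z hz =>
    obtain ⟨a, η, h1, rfl⟩ := hz
    exact ⟨1, fun _ => a, fun _ => η, fun _ => h1, by simp⟩
  | zero => exact ⟨0, Fin.elim0, Fin.elim0, fun i => i.elim0, by simp⟩
  | add z w _ _ hz hw =>
    obtain ⟨r, a, η, h1, rfl⟩ := hz
    obtain ⟨s, b, θ, h2, rfl⟩ := hw
    refine ⟨r + s, Fin.append a b, Fin.append η θ, fun i => ?_, ?_⟩
    · refine Fin.addCases (fun i => ?_) (fun i => ?_) i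
      · rw [Fin.append_left]
        exact h1 i
      · rw [Fin.append_right]
        exact h2 i
    · rw [Fin.sum_univ_add]
      simp only [Fin.append_left, Fin.append_right]
  | neg z _ hz =>
    obtain ⟨r, a, η, h1, rfl⟩ := hz
    refine ⟨r, a, fun i => -η i, fun i => Submodule.neg_mem _ (h1 i), ?_⟩
    rw [← Finset.sum_neg_distrib]
    exact Finset.sum_congr rfl fun i _ => (mul_neg _ _).symm

/-- The forms of degree `q + 1` in the kernel of the map to relative forms. -/
theorem rl_ker_deg {q : ℕ} {e : Fm ℤ R} (he : e ∈ Fd ℤ R (q + 1)) (h : rl A e = 0) :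
    ∃ (r : ℕ) (a : Fin r → A) (η : Fin r → Fm ℤ R), (∀ i, η i ∈ Fd ℤ R q) ∧
      e = ∑ i, df ℤ (algebraMap A R (a i)) * η i := by
  apply N1_fin A
  have h1 : ∀ z : Fm ℤ R, z ∈ AddSubgroup.closure {z : Fm ℤ R | ∃ (a : A) (η : Fm ℤ R),
      z = df ℤ (algebraMap A R a) * η} → pj ℤ (q + 1) z ∈ AddSubgroup.closure {z : Fm ℤ R |
        ∃ (a : A) (η : Fm ℤ R), η ∈ Fd ℤ R q ∧ z = df ℤ (algebraMap A R a) * η} := by
    intro z hz
    induction hz using AddSubgroup.closure_induction with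
    | mem z hz =>
      obtain ⟨a, η, rfl⟩ := hz
      rw [N1_pj]
      exact AddSubgroup.subset_closure ⟨a, _, pj_mem q η, rfl⟩
    | zero =>
      rw [map_zero]
      exact AddSubgroup.zero_mem _
    | add z w _ _ hz hw =>
      rw [map_add]
      exact AddSubgroup.add_mem _ hz hw
    | neg z _ hz =>
      rw [map_neg]
      exact AddSubgroup.neg_mem _ hz
  have h2 := h1 e (N1_cl A (N1_mem A h))
  rwa [pj_of_mem he] at h2

/-- Degree `0`. -/
theorem rl_ker_zero {e : Fm ℤ R} (he : e ∈ Fd ℤ R 0) (h : rl A e = 0) : e = 0 := by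
  have h1 : ∃ r : R, e = fz ℤ r := by
    refine fd_ind (P := fun e => ∃ r : R, e = fz ℤ r) ⟨0, (map_zero _).symm⟩
      (fun r t => ⟨r, by rw [wd_zero, mul_one]⟩) ?_ he
    rintro _ _ ⟨r, rfl⟩ ⟨s, rfl⟩
    exact ⟨r + s, (map_add _ _ _).symm⟩
  obtain ⟨r, rfl⟩ := h1
  rw [rl_fz] at h
  have h2 : r = 0 := by
    have h3 := ExteriorAlgebra.algebraMap_leftInverse (R := R) (Ω[R⁄A])
    have h4 := congrArg ExteriorAlgebra.algebraMapInv h
    have h5 : ExteriorAlgebra.algebraMapInv (fz A r) = r := h3 r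
    rw [h5, map_zero] at h4
    exact h4
  rw [h2, map_zero]

/-- Every form of degree `q` lifts to an absolute form. -/
theorem rl_surj {q : ℕ} {e : Fm A R} (he : e ∈ Fd A R q) : ∃ e' ∈ Fd ℤ R q, rl A e' = e := by
  refine fd_ind (P := fun e => ∃ e' ∈ Fd ℤ R q, rl A e' = e) ⟨0, Submodule.zero_mem _, map_zero _⟩
    (fun r t => ⟨fz ℤ r * wd ℤ t, fz_mul_mem r (wd_mem t), ?_⟩) ?_ he
  · rw [map_mul, rl_fz]
    congr 1
    exact mp_wd (cc_int A) t
  · rintro _ _ ⟨x, hx, rfl⟩ ⟨y, hy, rfl⟩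
    exact ⟨x + y, Submodule.add_mem _ hx hy, map_add _ _ _⟩

end MPadcTT
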