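import Pool.Agent.Lib.MP_adc574_ag_TT.N1

/-!
# Leaf N2: relative cocycles and absolute cochains

`rlC_Dt`: the map to relative cochains commutes with the total differential. `rlC_surj`: a cochain of degree `m` lifts to an absolute
cochain of degree `m` (`rl_surj`). `exists_eta`: if `c` is a cocycle, the total differential of the lift `C` is a sum of `d a_i ∧ η_i` with
`η_i` absolute cochains of degree `m` (`rl_ker_deg` at every `J`, `rl_ker_zero` for `|J| = m + 2`).
-/

set_option autoImplicit false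

namespace MPadcTT

open MPadcGP

universe u v

variable {A : Type u} [CommRing A] {n : ℕ} {X : CovD.{u, v} A n}

theorem rlC_add (C C' : (absD X).Ch) : rlC X (C + C') = rlC X C + rlC X C' := by
  funext J
  exact map_add (rl A (R := X.R J)) (C J) (C' J)

theorem rlC_sum {ι : Type*} (s : Finset ι) (C : ι → (absD X).Ch) : rlC X (∑ i ∈ s, C i) = ∑ i ∈ s, rlC X (C i) := by
  classical
  induction s using Finset.induction_on with
  | empty =>
    rw [Finset.sum_empty, Finset.sum_empty]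
    funext J
    exact map_zero (rl A (R := X.R J))
  | insert i s hi ih => rw [Finset.sum_insert hi, Finset.sum_insert hi, rlC_add, ih]

theorem rlC_ev (C : (absD X).Ch) {K J : Finset (Fin n)} (h : K ⊆ J) :
    rl A (R := X.R J) ((absD X).ev C K J) = X.ev (rlC X C) K J := by
  rw [CovD.ev_of h, CovD.ev_of h]
  exact rl_rs h (C K)

theorem rlC_ic (C : (absD X).Ch) : rlC X ((absD X).ic C) = X.ic (rlC X C) := by
  funext J
  exact rl_inv A _

/-- The map to relative forms as an additive map. -/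
private noncomputable def N2_h (X : CovD.{u, v} A n) (J : Finset (Fin n)) : (absD X).E J →+ X.E J :=
  ((rl A (R := X.R J)).toAddMonoidHom : Fm ℤ (X.R J) →+ Fm A (X.R J))

private theorem N2_h_apply (J : Finset (Fin n)) (e : (absD X).E J) : N2_h X J e = rl A (R := X.R J) e := rfl

theorem rlC_Dt (C : (absD X).Ch) : rlC X ((absD X).Dt C) = X.Dt (rlC X C) := by
  funext J
  have h1 : rlC X ((absD X).Dt C) J = N2_h X J (dd ℤ (C J) +
      ∑ j ∈ J, sg j J • (absD X).ev ((absD X).ic C) (J.erase j) J) := rfl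
  have h2 : X.Dt (rlC X C) J = dd A (rlC X C J) + ∑ j ∈ J, sg j J • X.ev (X.ic (rlC X C)) (J.erase j) J := rfl
  rw [h1, h2, map_add, map_sum]
  congr 1
  · exact rl_dd A _
  · refine Finset.sum_congr rfl fun j _ => ?_
    rw [map_zsmul, N2_h_apply, rlC_ev _ (Finset.erase_subset j J), rlC_ic]

/-- Cochains lift to absolute cochains. -/
theorem rlC_surj {m : ℕ} {c : X.Ch} (hc : c ∈ X.Tt m) : ∃ C ∈ (absD X).Tt m, rlC X C = c := by
  have h1 : ∀ J : Finset (Fin n), ∃ e : (absD X).E J, (J = ∅ → e = 0) ∧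
      (∀ q, q + J.card = m + 1 → e ∈ Fd ℤ ((absD X).R J) q) ∧ (m + 1 < J.card → e = 0) ∧
      rl A (R := X.R J) e = c J := by
    intro J
    by_cases hJ : J = ∅
    · subst hJ
      exact ⟨0, fun _ => rfl, fun q _ => Submodule.zero_mem _, fun _ => rfl, by rw [hc.1]; exact map_zero _⟩
    by_cases h2 : m + 1 < J.card
    · exact ⟨0, fun _ => rfl, fun q _ => Submodule.zero_mem _, fun _ => rfl, by rw [(hc.2 J).2 h2]; exact map_zero _⟩
    · obtain ⟨q, hq⟩ : ∃ q, q + J.card = m + 1 := ⟨m + 1 - J.card, by omega⟩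
      obtain ⟨e, he, hec⟩ := rl_surj A ((hc.2 J).1 q hq)
      refine ⟨e, fun h => absurd h hJ, fun q' hq' => ?_, fun h => absurd h h2, hec⟩
      obtain rfl : q' = q := by omega
      exact he
  choose C hC1 hC2 hC3 hC4 using h1
  exact ⟨C, ⟨hC1 ∅ rfl, fun J => ⟨hC2 J, hC3 J⟩⟩, funext hC4⟩

/-- The Katz–Oda data of a cocycle. -/
theorem exists_eta {m : ℕ} {c : X.Ch} (hc : c ∈ X.Zc m) :
    ∃ (C : (absD X).Ch) (r : ℕ) (a : Fin r → A) (η : Fin r → (absD X).Ch), C ∈ (absD X).Tt m ∧
      (∀ i, η i ∈ (absD X).Tt m) ∧ rlC X C = c ∧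
      ∀ J, (absD X).Dt C J = ∑ i, (df ℤ (algebraMap A (X.R J) (a i)) : (absD X).E J) * η i J := by
  classical
  obtain ⟨C, hC, hCc⟩ := rlC_surj hc.1
  have hD := CovD.Dt_mem hC
  have hD0 : ∀ J, rl A (R := X.R J) ((absD X).Dt C J) = 0 := by
    intro J
    have h1 : rlC X ((absD X).Dt C) J = 0 := by
      rw [rlC_Dt, hCc]
      exact congrFun hc.2 J
    exact h1
  have h1 : ∀ J : Finset (Fin n), ∃ (r : ℕ) (a : Fin r → A) (η : Fin r → (absD X).E J),
      (∀ i, (J = ∅ → η i = 0) ∧ (∀ q, q + J.card = m + 1 → η i ∈ Fd ℤ ((absD X).R J) q) ∧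
        (m + 1 < J.card → η i = 0)) ∧
      (absD X).Dt C J = ∑ i, (df ℤ (algebraMap A (X.R J) (a i)) : (absD X).E J) * η i := by
    intro J
    have hz : (absD X).Dt C J = 0 → ∃ (r : ℕ) (a : Fin r → A) (η : Fin r → (absD X).E J),
        (∀ i, (J = ∅ → η i = 0) ∧ (∀ q, q + J.card = m + 1 → η i ∈ Fd ℤ ((absD X).R J) q) ∧
          (m + 1 < J.card → η i = 0)) ∧
        (absD X).Dt C J = ∑ i, (df ℤ (algebraMap A (X.R J) (a i)) : (absD X).E J) * η i := by
      intro h
      refine ⟨0, Fin.elim0, Fin.elim0, fun i => i.elim0, ?_⟩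
      rw [h]
      simp
    by_cases hJ : J = ∅
    · subst hJ
      exact hz hD.1
    by_cases h2 : m + 1 < J.card
    · apply hz
      by_cases h3 : m + 1 + 1 < J.card
      · exact (hD.2 J).2 h3
      · exact rl_ker_zero A (R := X.R J) ((hD.2 J).1 0 (by omega)) (hD0 J)
    · obtain ⟨q, hq⟩ : ∃ q, q + J.card = m + 1 := ⟨m + 1 - J.card, by omega⟩
      obtain ⟨r, a, η, h3, h4⟩ := @rl_ker_deg A (X.R J) _ (X.cr J) (X.al J) q ((absD X).Dt C J)
        ((hD.2 J).1 (q + 1) (by omega)) (hD0 J)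
      refine ⟨r, a, η, fun i => ⟨fun h => absurd h hJ, fun q' hq' => ?_, fun h => absurd h h2⟩, h4⟩
      obtain rfl : q' = q := by omega
      exact h3 i
  choose r a η hη hs using h1
  -- all the components together
  obtain ⟨N, ⟨e⟩⟩ : ∃ N, Nonempty ((Σ J : Finset (Fin n), Fin (r J)) ≃ Fin N) :=
    ⟨_, ⟨Fintype.equivFin _⟩⟩
  refine ⟨C, N, fun i => a (e.symm i).1 (e.symm i).2,
    fun i => Pi.single (e.symm i).1 (η (e.symm i).1 (e.symm i).2), hC, fun i => ?_, hCc, fun J => ?_⟩
  · change (Pi.single (e.symm i).1 (η (e.symm i).1 (e.symm i).2) : (absD X).Ch) ∈ (absD X).Tt m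
    generalize e.symm i = p
    obtain ⟨K, l⟩ := p
    change (Pi.single K (η K l) : (absD X).Ch) ∈ (absD X).Tt m
    have h2 : ∀ J : Finset (Fin n), J ≠ K → (Pi.single K (η K l) : (absD X).Ch) J = 0 := fun J h =>
      Pi.single_eq_of_ne h _
    have h3 : (Pi.single K (η K l) : (absD X).Ch) K = η K l := Pi.single_eq_same K _
    refine ⟨?_, fun J => ⟨fun q hq => ?_, fun h => ?_⟩⟩
    · by_cases hK : ∅ = K
      · subst hK
        rw [h3]
        exact (hη ∅ l).1 rfl
      · exact h2 _ hK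
    · by_cases hK : J = K
      · subst hK
        rw [h3]
        exact (hη J l).2.1 q hq
      · rw [h2 _ hK]
        exact Submodule.zero_mem _
    · by_cases hK : J = K
      · subst hK
        rw [h3]
        exact (hη J l).2.2 h
      · exact h2 _ hK
  · rw [hs J]
    have h2 : ∑ i : Fin N, (df ℤ (algebraMap A (X.R J) (a (e.symm i).1 (e.symm i).2)) : (absD X).E J) *
        (Pi.single (e.symm i).1 (η (e.symm i).1 (e.symm i).2) : (absD X).Ch) J =
        ∑ p : (Σ K : Finset (Fin n), Fin (r K)), (df ℤ (algebraMap A (X.R J) (a p.1 p.2)) : (absD X).E J) *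
          (Pi.single p.1 (η p.1 p.2) : (absD X).Ch) J :=
      Equiv.sum_comp e.symm (fun p : (Σ K : Finset (Fin n), Fin (r K)) =>
        (df ℤ (algebraMap A (X.R J) (a p.1 p.2)) : (absD X).E J) * (Pi.single p.1 (η p.1 p.2) : (absD X).Ch) J)
    rw [h2, Fintype.sum_sigma, Finset.sum_eq_single J]
    · refine Finset.sum_congr rfl fun i _ => ?_
      rw [Pi.single_eq_same]
    · intro K _ hK
      refine Finset.sum_eq_zero fun i _ => ?_
      rw [Pi.single_eq_of_ne (Ne.symm hK), mul_zero]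
    · intro h
      exact absurd (Finset.mem_univ _) h

end MPadcTT
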