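import Pool.Agent.Lib.MP_adc574_ag_TT.N3
import Pool.Agent.Lib.MP_adc574_ag_GP.BigHdg

/-!
# Leaf N5: the Leibniz rule of the connection for products

`nabla_prod`: if `x' = ∇_D x` and `y' = ∇_D y` (definition by absolute forms) then `∇_D (x y) = x' y + x y'`: the absolute cochains
`C`, `C'` of `x`, `y` give the absolute cochain `cup C C'` of `x y`, and `Dt (cup C C') = cup (Dt C) C' ± cup C (Dt C')` is
`∑ d a_i ∧ cup η_i C' + ∑ d a'_j ∧ cup C η'_j`.
-/

set_option autoImplicit false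

namespace MPadcTT

open MPadcGP OrdRed

universe u v

variable {A : Type u} [CommRing A] {n : ℕ} {X : CovD.{u, v} A n} {D : Derivation ℤ A A}

/-- The product of a cochain of absolute forms with the differential of a constant. -/
private noncomputable def N5_df (X : CovD.{u, v} A n) (a : A) (η : (absD X).Ch) : (absD X).Ch := fun J =>
  (df ℤ (algebraMap A (X.R J) a) : (absD X).E J) * η J

private theorem N5_df_apply (a : A) (η : (absD X).Ch) (J : Finset (Fin n)) :
    N5_df X a η J = (df ℤ (algebraMap A (X.R J) a) : (absD X).E J) * η J := rfl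

private theorem N5_ev (a : A) (η : (absD X).Ch) {K J : Finset (Fin n)} (h : K ⊆ J) :
    (absD X).ev (N5_df X a η) K J = (df ℤ (algebraMap A (X.R J) a) : (absD X).E J) * (absD X).ev η K J := by
  rw [CovD.ev_of h, CovD.ev_of h, N5_df_apply, map_mul]
  congr 1
  have h1 : (absD X).rs h (df ℤ (algebraMap A (X.R K) a)) = df ℤ ((absD X).ρ h (algebraMap A (X.R K) a)) :=
    CovD.rs_df h _
  refine h1.trans ?_
  exact congrArg (fun z : X.R J => (df ℤ z : Fm ℤ (X.R J))) ((X.ρ h).commutes a)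

private theorem N5_left (a : A) (η b : (absD X).Ch) :
    (absD X).cup (N5_df X a η) b = N5_df X a ((absD X).cup η b) := by
  funext J
  rw [N5_df_apply, CovD.cup_apply, CovD.cup_apply, Finset.mul_sum]
  refine Finset.sum_congr rfl fun s _ => ?_
  rw [N5_ev _ _ (Finset.filter_subset _ J), mul_assoc]

private theorem N5_it {R : Type v} [CommRing R] (p : ℕ) (t : R) : it ℤ p (df ℤ t) = ((-1 : ℤ) ^ p) • df ℤ t := by
  by_cases h : Even p
  · rw [it_even ℤ h, h.neg_one_pow, one_smul]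
  · rw [it_odd ℤ h, inv_df, (Nat.not_even_iff_odd.1 h).neg_one_pow, neg_one_smul]

private theorem N5_swap {R : Type v} [CommRing R] (t : R) (e : Fm ℤ R) : e * df ℤ t = df ℤ t * inv ℤ e := by
  rw [df_comm, MPadcGP.inv_inv]

private theorem N5_sign {m : ℕ} {a : (absD X).Ch} (ha : a ∈ (absD X).Tt m) {K J : Finset (Fin n)} {p : ℕ}
    (h : K.card = p + 1) :
    ((-1 : ℤ) ^ p) • inv ℤ ((absD X).ev a K J) = ((-1 : ℤ) ^ m) • (absD X).ev a K J := by
  rcases Nat.lt_or_ge (m + 1) K.card with h2 | h2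
  · rw [CovD.ev_eq_zero ((ha.2 _).2 h2), map_zero, smul_zero, smul_zero]
  · have h3 := CovD.ev_mem ((ha.2 K).1 (m + 1 - K.card) (by omega)) J
    rw [inv_zsmul ℤ h3, smul_smul, ← pow_add]
    congr 2
    omega

private theorem N5_right {m : ℕ} {C : (absD X).Ch} (hC : C ∈ (absD X).Tt m) (a : A) (η : (absD X).Ch) :
    (absD X).cup C (N5_df X a η) = ((-1 : ℤ) ^ m) • N5_df X a ((absD X).cup C η) := by
  funext J
  rw [Pi.smul_apply, N5_df_apply, CovD.cup_apply, CovD.cup_apply, Finset.mul_sum, Finset.smul_sum]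
  refine Finset.sum_congr rfl fun s hs => ?_
  rw [N5_ev _ _ (Finset.filter_subset _ J), map_mul]
  have h1 : it ℤ (J.filter (· < s)).card (df ℤ (algebraMap A (X.R J) a) : (absD X).E J) =
      ((-1 : ℤ) ^ (J.filter (· < s)).card) • (df ℤ (algebraMap A (X.R J) a) : (absD X).E J) := N5_it _ _
  rw [h1, smul_mul_assoc, mul_smul_comm, ← mul_assoc]
  have h2 : (absD X).ev C (J.filter (· ≤ s)) J * (df ℤ (algebraMap A (X.R J) a) : (absD X).E J) =
      (df ℤ (algebraMap A (X.R J) a) : (absD X).E J) * inv ℤ ((absD X).ev C (J.filter (· ≤ s)) J) := N5_swap _ _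
  rw [h2, ← smul_mul_assoc, ← mul_smul_comm, N5_sign hC (card_le hs), mul_smul_comm, smul_mul_assoc, mul_assoc]

private theorem N5_it_rl {R : Type v} [CommRing R] [Algebra A R] (p : ℕ) (e : Fm ℤ R) :
    rl A (it ℤ p e) = it A p (rl A e) := mp_it ℤ (cc_int A) p e

private theorem N5_rlC_cup (C C' : (absD X).Ch) : rlC X ((absD X).cup C C') = X.cup (rlC X C) (rlC X C') := by
  funext J
  have h1 : rlC X ((absD X).cup C C') J = (rl A (R := X.R J)).toAddMonoidHom (∑ s ∈ J,
      ((absD X).ev C (J.filter (· ≤ s)) J * it ℤ (J.filter (· < s)).card ((absD X).ev C' (J.filter (s ≤ ·)) J) :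
        (absD X).E J)) := rfl
  rw [h1, CovD.cup_apply]
  refine (map_sum _ _ _).trans (Finset.sum_congr rfl fun s _ => ?_)
  rw [← rlC_ev C (Finset.filter_subset _ J), ← rlC_ev C' (Finset.filter_subset _ J)]
  refine (map_mul (rl A (R := X.R J)) _ _).trans ?_
  congr 1
  exact N5_it_rl _ _

private theorem N5_sum_apply {ι : Type*} (s : Finset ι) (f : ι → (absD X).Ch) (J : Finset (Fin n)) :
    (∑ i ∈ s, f i) J = ∑ i ∈ s, f i J := Finset.sum_apply J s f

/-- The Leibniz rule for products. -/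
theorem nabla_prod {m m' : ℕ} {x x' : (cov X).DR m} {y y' : (cov X).DR m'} (hx : (cov X).nabla m D x x')
    (hy : (cov X).nabla m' D y y') {z z1 z2 : (cov X).DR (m + m')} (hz : (cov X).prod m m' x y z)
    (hz1 : (cov X).prod m m' x' y z1) (hz2 : (cov X).prod m m' x y' z2) :
    (cov X).nabla (m + m') D z (z1 + z2) := by
  obtain ⟨x, rfl⟩ := (cmp X m).surjective x
  obtain ⟨x', rfl⟩ := (cmp X m).surjective x'
  obtain ⟨y, rfl⟩ := (cmp X m').surjective y
  obtain ⟨y', rfl⟩ := (cmp X m').surjective y'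
  obtain ⟨z, rfl⟩ := (cmp X (m + m')).surjective z
  obtain ⟨z1, rfl⟩ := (cmp X (m + m')).surjective z1
  obtain ⟨z2, rfl⟩ := (cmp X (m + m')).surjective z2
  obtain ⟨μ, hμ⟩ := X.exists_cupH m m'
  -- the product is a function
  have hpr : ∀ (c : ↥(X.Zc m)) (d : ↥(X.Zc m')) (t : X.HdR (m + m')),
      (cov X).prod m m' (cmp X m (X.cl m c)) (cmp X m' (X.cl m' d)) (cmp X (m + m') t) →
      t = X.cl (m + m') ⟨X.cup (c : X.Ch) (d : X.Ch), CovD.cup_mem_Zc c.2 d.2⟩ := by
    intro c d t h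
    obtain ⟨c', d', e, h1, h2, h3, h4⟩ := prod_iff.1 h
    have h5 := hμ c' d'
    rw [h2, h3, hμ c d, CovD.cupZ_apply, CovD.cupZ_apply] at h5
    rw [h5, ← h4]
    exact congrArg (X.cl (m + m')) (Subtype.ext h1.symm)
  obtain ⟨C, r, a, η, hC, hη, hCx, hd, hsx⟩ := hx
  obtain ⟨C', r', a', η', hC', hη', hCy, hd', hsy⟩ := hy
  have hC2 : C ∈ (absD X).Tt m := deg_iff.1 hC
  have hC2' : C' ∈ (absD X).Tt m' := deg_iff.1 hC'
  have hη2 : ∀ i, η i ∈ (absD X).Tt m := fun i => deg_iff.1 (hη i)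
  have hη2' : ∀ i, η' i ∈ (absD X).Tt m' := fun i => deg_iff.1 (hη' i)
  obtain ⟨c, hc, rfl⟩ := hasClass_iff.1 hCx
  obtain ⟨s, hs, rfl⟩ := hasClass_iff.1 hsx
  obtain ⟨d, hdc, rfl⟩ := hasClass_iff.1 hCy
  obtain ⟨t, ht, rfl⟩ := hasClass_iff.1 hsy
  rw [hpr _ _ _ hz, hpr _ _ _ hz1, hpr _ _ _ hz2]
  have hc2 : (c : X.Ch) = rlC X C := hc.trans (rel_eq C)
  have hd2 : (d : X.Ch) = rlC X C' := hdc.trans (rel_eq C')
  have hs2 : (s : X.Ch) = ∑ i, D (a i) • rlC X (η i) :=
    hs.trans (Finset.sum_congr rfl fun i _ => congrArg (fun z : X.Ch => D (a i) • z) (rel_eq (η i)))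
  have ht2 : (t : X.Ch) = ∑ i, D (a' i) • rlC X (η' i) :=
    ht.trans (Finset.sum_congr rfl fun i _ => congrArg (fun z : X.Ch => D (a' i) • z) (rel_eq (η' i)))
  have hD : (absD X).Dt C = ∑ i, N5_df X (a i) (η i) := by
    funext J
    rw [N5_sum_apply]
    exact (congrFun (tot_eq (X := absD X) C) J).symm.trans (hd J)
  have hD' : (absD X).Dt C' = ∑ i, N5_df X (a' i) (η' i) := by
    funext J
    rw [N5_sum_apply]
    exact (congrFun (tot_eq (X := absD X) C') J).symm.trans (hd' J)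
  have hDt : (absD X).Dt ((absD X).cup C C') = ∑ i, N5_df X (a i) ((absD X).cup (η i) C') +
      ∑ i, N5_df X (a' i) ((absD X).cup C (η' i)) := by
    rw [CovD.Dt_cup hC2 hC2', hD, hD', CovD.cup_sum_left, CovD.cup_sum_right]
    congr 1
    · exact Finset.sum_congr rfl fun i _ => N5_left _ _ _
    · rw [Finset.smul_sum]
      refine Finset.sum_congr rfl fun i _ => ?_
      rw [N5_right hC2, smul_smul, ← pow_add, Even.neg_one_pow ⟨m, rfl⟩, one_smul]
  refine ⟨(absD X).cup C C', r + r', Fin.append a a',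
    Fin.append (fun i => (absD X).cup (η i) C') (fun i => (absD X).cup C (η' i)),
    deg_iff.2 (CovD.cup_mem hC2 hC2'), fun i => ?_, ?_, fun J => ?_, ?_⟩
  · refine Fin.addCases (fun i => ?_) (fun i => ?_) i
    · rw [Fin.append_left]
      exact deg_iff.2 (CovD.cup_mem (hη2 i) hC2')
    · rw [Fin.append_right]
      exact deg_iff.2 (CovD.cup_mem hC2 (hη2' i))
  · refine hasClass_iff.2 ⟨⟨X.cup (c : X.Ch) (d : X.Ch), CovD.cup_mem_Zc c.2 d.2⟩, ?_, rfl⟩
    change X.cup (c : X.Ch) (d : X.Ch) = (cov X).rel ((absD X).cup C C')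
    rw [hc2, hd2, ← N5_rlC_cup]
    exact (rel_eq _).symm
  · refine (congrFun (tot_eq (X := absD X) ((absD X).cup C C')) J).trans ((congrFun hDt J).trans ?_)
    rw [Fin.sum_univ_add]
    have h1 : (∑ i, N5_df X (a i) ((absD X).cup (η i) C') + ∑ i, N5_df X (a' i) ((absD X).cup C (η' i))) J =
        ∑ i, N5_df X (a i) ((absD X).cup (η i) C') J + ∑ i, N5_df X (a' i) ((absD X).cup C (η' i)) J := by
      rw [← N5_sum_apply, ← N5_sum_apply]
      rfl
    rw [h1]
    simp only [Fin.append_left, Fin.append_right]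
    rfl
  · rw [← map_add, ← map_add]
    refine hasClass_iff.2 ⟨_, ?_, rfl⟩
    change X.cup (s : X.Ch) (d : X.Ch) + X.cup (c : X.Ch) (t : X.Ch) = _
    rw [hs2, ht2, CovD.cup_sum_left, CovD.cup_sum_right]
    change _ = (∑ i, D (Fin.append a a' i) • ((cov X).rel (Fin.append (fun i => (absD X).cup (η i) C')
      (fun i => (absD X).cup C (η' i)) i) : X.Ch) : X.Ch)
    rw [Fin.sum_univ_add]
    simp only [Fin.append_left, Fin.append_right]
    congr 1
    · refine Finset.sum_congr rfl fun i _ => ?_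
      have h1 : ((cov X).rel ((absD X).cup (η i) C') : X.Ch) = rlC X ((absD X).cup (η i) C') := rel_eq _
      rw [h1, N5_rlC_cup, hd2, CovD.cup_smul_left]
      rfl
    · refine Finset.sum_congr rfl fun i _ => ?_
      have h1 : ((cov X).rel ((absD X).cup C (η' i)) : X.Ch) = rlC X ((absD X).cup C (η' i)) := rel_eq _
      rw [h1, N5_rlC_cup, hc2, CovD.cup_smul_right]
      rfl

end MPadcTT
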