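import Pool.Agent.Lib.MP_adc574_ag_TT.D0

/-! LEAF T0: the trivial transport -/

set_option autoImplicit false

namespace MPadcTT

universe u v w

variable {k : Type u} [Field k] {H : ℕ → Type v} [∀ n, AddCommGroup (H n)] [∀ n, Module k (H n)]
  (C : ∀ n, Cn k (H n)) (mu : ∀ n m, H n →ₗ[k] H m →ₗ[k] H (n + m)) {β : ℕ → Type} [∀ n, Fintype (β n)]
  (b : ∀ n, Module.Basis (β n) k (H n))

/-- Proof. `σ = id`, `T n x i = (b n).repr x i`, `ε = id`. `ev b lam (repr x) = lam x` (`Basis.sum_repr`, `map_sum`), so the function in `van` is `Dt lam`.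
`mul`: expand `x` and `y` in the bases (`(b n).sum_repr x`), bilinearity. `Rep`: `κ = id`, word `[]`. -/
theorem tr_zero : ∃ T : Tr C mu b k, T.Rep [] := by
  have hev : ∀ (n : ℕ) (lam : H n →ₗ[k] k) (x : H n), ev b lam (fun i => (b n).repr x i) = lam x := by
    intro n lam x
    have h1 : lam x = ∑ i, (b n).repr x i * lam (b n i) := by
      conv_lhs => rw [← (b n).sum_repr x]
      rw [map_sum]
      exact Finset.sum_congr rfl fun i _ => by rw [map_smul, smul_eq_mul]
    rw [h1, ev]
    exact Finset.sum_congr rfl fun i _ => by rw [Algebra.algebraMap_self, RingHom.id_apply, mul_comm]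
  have hDt : ∀ (n : ℕ) (ι : Type) [Fintype ι] [DecidableEq ι] (lam : ι → H n →ₗ[k] k) (x : ι → H n),
      (Matrix.of fun i j => ev b (lam i) (fun l => (b n).repr (x j) l)).det = Dt lam x := by
    intro n ι _ _ lam x
    rw [Dt]
    congr 1
    ext i j
    exact hev n (lam i) (x j)
  have hmul : ∀ (n m : ℕ) (x : H n) (y : H m) (c : β (n + m)), (b (n + m)).repr (mu n m x y) c =
      ∑ i, ∑ j, algebraMap k k ((b (n + m)).repr (mu n m (b n i) (b m j)) c) *
        ((b n).repr x i * (b m).repr y j) := by
    intro n m x y c
    have h1 : mu n m x y = ∑ i, (b n).repr x i • mu n m (b n i) y := by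
      conv_lhs => rw [← (b n).sum_repr x]
      rw [map_sum (mu n m), LinearMap.sum_apply]
      exact Finset.sum_congr rfl fun i _ => by rw [map_smul (mu n m), LinearMap.smul_apply]
    have h2 : ∀ i, mu n m (b n i) y = ∑ j, (b m).repr y j • mu n m (b n i) (b m j) := by
      intro i
      conv_lhs => rw [← (b m).sum_repr y]
      rw [map_sum (mu n m (b n i))]
      exact Finset.sum_congr rfl fun j _ => by rw [map_smul (mu n m (b n i))]
    rw [h1, map_sum (b (n + m)).repr, Finsupp.finsetSum_apply]
    refine Finset.sum_congr rfl fun i _ => ?_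
    rw [map_smul (b (n + m)).repr, Finsupp.smul_apply, h2, map_sum (b (n + m)).repr, Finsupp.finsetSum_apply,
      Finset.smul_sum]
    refine Finset.sum_congr rfl fun j _ => ?_
    rw [map_smul (b (n + m)).repr, Finsupp.smul_apply, smul_eq_mul, smul_eq_mul, Algebra.algebraMap_self,
      RingHom.id_apply]
    ring
  refine ⟨{ σ := RingHom.id k
            T := fun n x i => (b n).repr x i
            add := fun n x y i => by rw [map_add, Finsupp.add_apply]
            smul := fun n a x i => by rw [map_smul, Finsupp.smul_apply, smul_eq_mul, RingHom.id_apply]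
            mul := fun n m x y c => hmul n m x y c
            ε := RingHom.id k
            εa := fun a => rfl
            εT := fun n x i => rfl
            van := fun n ι _ _ lam x h w => by
              have h1 : (fun x : ι → H n => (Matrix.of fun i j => ev b (lam i) (fun l => (b n).repr (x j) l)).det) =
                  Dt lam := funext fun x => hDt n ι lam x
              rw [h1]
              exact h w }, AddMonoidHom.id k, ?_⟩
  intro n ι _ _ lam x
  rw [dls_nil]
  exact hDt n ι lam x

end MPadcTT
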