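import Pool.Agent.Lib.MP_adc574_ag_TT.D0

/-! LEAF T1: the series `∑ a_n s^n / n!` -/

set_option autoImplicit false

namespace MPadcTT

open PowerSeries

universe u v w

variable (k : Type u) [Field k] {R : Type w} [CommRing R] [Algebra k R]

/-- `∑ a_n s^n / n!` -/
noncomputable def tay (a : ℕ → R) : PowerSeries R := PowerSeries.mk fun n => algebraMap k R ((n.factorial : k)⁻¹) * a n

theorem coeff_tay (a : ℕ → R) (n : ℕ) : coeff n (tay k a) = algebraMap k R ((n.factorial : k)⁻¹) * a n := by
  unfold tay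
  rw [coeff_mk]

theorem coeff_zero_tay (a : ℕ → R) : constantCoeff (tay k a) = a 0 := by
  rw [← coeff_zero_eq_constantCoeff_apply, coeff_tay, Nat.factorial_zero, Nat.cast_one, inv_one, map_one, one_mul]

theorem coeff_one_tay (a : ℕ → R) : coeff 1 (tay k a) = a 1 := by
  rw [coeff_tay, Nat.factorial_one, Nat.cast_one, inv_one, map_one, one_mul]

theorem tay_add (a c : ℕ → R) : tay k (fun n => a n + c n) = tay k a + tay k c := by
  ext n
  rw [map_add, coeff_tay, coeff_tay, coeff_tay, mul_add]

theorem tay_smul (r : R) (a : ℕ → R) : tay k (fun n => r * a n) = C r * tay k a := by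
  ext n
  rw [coeff_C_mul, coeff_tay, coeff_tay]
  ring

theorem tay_sum {ι : Type*} (s : Finset ι) (a : ι → ℕ → R) : tay k (fun n => ∑ i ∈ s, a i n) = ∑ i ∈ s, tay k (a i) := by
  ext n
  rw [map_sum, coeff_tay, Finset.mul_sum]
  exact Finset.sum_congr rfl fun i _ => (coeff_tay k (a i) n).symm

/-- Proof. `coeff_mul`, `n! / (i! j!) = choose n i` (`Nat.add_choose_mul_factorial_mul_factorial` or `Nat.choose_mul_factorial_mul_factorial`), `CharZero k`. -/
theorem tay_mul [CharZero k] (a c : ℕ → R) : tay k a * tay k c =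
    tay k (fun n => ∑ p ∈ Finset.HasAntidiagonal.antidiagonal n, ((n.choose p.1 : ℕ) : R) * (a p.1 * c p.2)) := by
  ext n
  rw [coeff_mul, coeff_tay, Finset.mul_sum]
  refine Finset.sum_congr rfl fun p hp => ?_
  rw [Finset.HasAntidiagonal.mem_antidiagonal] at hp
  rw [coeff_tay, coeff_tay]
  have h1 : ((p.1.factorial : k)⁻¹) * ((p.2.factorial : k)⁻¹) = ((n.factorial : k)⁻¹) * (n.choose p.1 : k) := by
    have h2 : (n.choose p.1 : k) * p.1.factorial * p.2.factorial = n.factorial := by
      rw [← hp, Nat.choose_symm_add]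
      exact_mod_cast Nat.add_choose_mul_factorial_mul_factorial p.1 p.2
    have h3 : (p.1.factorial : k) ≠ 0 := Nat.cast_ne_zero.2 (Nat.factorial_ne_zero _)
    have h4 : (p.2.factorial : k) ≠ 0 := Nat.cast_ne_zero.2 (Nat.factorial_ne_zero _)
    have h5 : (n.factorial : k) ≠ 0 := Nat.cast_ne_zero.2 (Nat.factorial_ne_zero _)
    field_simp
    rw [← h2]
    ring
  have h6 := congrArg (algebraMap k R) h1
  rw [map_mul, map_mul, map_natCast] at h6
  linear_combination (a p.1 * c p.2) * h6

theorem d_tay [CharZero k] (a : ℕ → R) : d⁄dX R (tay k a) = tay k (fun n => a (n + 1)) := by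
  ext n
  rw [coeff_derivative, coeff_tay, coeff_tay]
  have h1 : (((n + 1).factorial : k)⁻¹) * ((n : k) + 1) = ((n.factorial : k)⁻¹) := by
    have h2 : ((n + 1).factorial : k) = ((n : k) + 1) * n.factorial := by
      rw [Nat.factorial_succ]
      push_cast
      ring
    have h3 : (n.factorial : k) ≠ 0 := Nat.cast_ne_zero.2 (Nat.factorial_ne_zero _)
    have h4 : (n : k) + 1 ≠ 0 := by exact_mod_cast Nat.succ_ne_zero n
    rw [h2]
    field_simp
  have h6 := congrArg (algebraMap k R) h1
  rw [map_mul, map_add, map_natCast, map_one] at h6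
  linear_combination (a (n + 1)) * h6

end MPadcTT
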