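import Pool.Agent.Lib.MP_adc574_ag_TT.D0

/-! LEAF T2: Leibniz rules for iterates -/

set_option autoImplicit false

namespace MPadcTT

universe u v w

private theorem T2_iter {M : Type*} [AddCommMonoid M] (T : M →+ M) (g : ℕ → ℕ → M)
    (hg : ∀ i j, T (g i j) = g (i + 1) j + g i (j + 1)) (n : ℕ) :
    (⇑T)^[n] (g 0 0) = ∑ p ∈ Finset.HasAntidiagonal.antidiagonal n, (n.choose p.1) • g p.1 p.2 := by
  induction n with
  | zero => simp
  | succ n ih =>
    rw [Function.iterate_succ_apply', ih, map_sum, Finset.sum_antidiagonal_choose_succ_nsmul,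
      ← Finset.sum_add_distrib]
    refine Finset.sum_congr rfl fun p hp => ?_
    rw [map_nsmul, hg, nsmul_add, add_comm]
    have h1 : n.choose p.2 = n.choose p.1 := by
      refine Nat.choose_symm_of_eq_add ?_
      rw [add_comm]
      exact (Finset.HasAntidiagonal.mem_antidiagonal.1 hp).symm
    rw [h1]

section

variable {k : Type u} [Field k] {V : Type v} [AddCommGroup V] [Module k V]

theorem iter_add (C : Cn k V) (D : Derivation ℤ k k) (n : ℕ) (x y : V) :
    (C.c D)^[n] (x + y) = (C.c D)^[n] x + (C.c D)^[n] y := by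
  induction n with
  | zero => rfl
  | succ n ih =>
    rw [Function.iterate_succ_apply', ih, C.add, Function.iterate_succ_apply',
      Function.iterate_succ_apply']

/-- Proof. Induction on `n`, `Finset.sum_antidiagonal_choose_succ_nsmul` or as in the proof of `add_pow`. -/
theorem iter_smul (C : Cn k V) (D : Derivation ℤ k k) (n : ℕ) (a : k) (x : V) :
    (C.c D)^[n] (a • x) = ∑ p ∈ Finset.HasAntidiagonal.antidiagonal n, (n.choose p.1) • ((⇑D)^[p.1] a • (C.c D)^[p.2] x) := by
  refine T2_iter (C.hom D) (fun i j => (⇑D)^[i] a • (C.c D)^[j] x) (fun i j => ?_) n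
  change C.c D ((⇑D)^[i] a • (C.c D)^[j] x) = _
  rw [C.leib, add_comm]
  simp only [Function.iterate_succ_apply']

end

section

variable {k : Type u} [Field k] {H : ℕ → Type v} [∀ n, AddCommGroup (H n)] [∀ n, Module k (H n)]
  {C : ∀ n, Cn k (H n)} {mu : ∀ n m, H n →ₗ[k] H m →ₗ[k] H (n + m)}

theorem iter_mu (hmu : ∀ D n m x y, (C (n + m)).c D (mu n m x y) = mu n m ((C n).c D x) y + mu n m x ((C m).c D y))
    (D : Derivation ℤ k k) (n m N : ℕ) (x : H n) (y : H m) :
    ((C (n + m)).c D)^[N] (mu n m x y) = ∑ p ∈ Finset.HasAntidiagonal.antidiagonal N, (N.choose p.1) •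
      mu n m (((C n).c D)^[p.1] x) (((C m).c D)^[p.2] y) := by
  refine T2_iter ((C (n + m)).hom D)
    (fun i j => mu n m (((C n).c D)^[i] x) (((C m).c D)^[j] y)) (fun i j => ?_) N
  change (C (n + m)).c D (mu n m (((C n).c D)^[i] x) (((C m).c D)^[j] y)) = _
  rw [hmu]
  simp only [Function.iterate_succ_apply']

theorem iter_der_mul (D : Derivation ℤ k k) (N : ℕ) (x y : k) :
    (⇑D)^[N] (x * y) = ∑ p ∈ Finset.HasAntidiagonal.antidiagonal N, (N.choose p.1 : k) * ((⇑D)^[p.1] x * (⇑D)^[p.2] y) := by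
  have h := T2_iter (D : k →ₗ[ℤ] k).toAddMonoidHom (fun i j => (⇑D)^[i] x * (⇑D)^[j] y)
    (fun i j => by
      change D ((⇑D)^[i] x * (⇑D)^[j] y) = _
      rw [Derivation.leibniz, smul_eq_mul, smul_eq_mul, add_comm]
      simp only [Function.iterate_succ_apply']
      rw [mul_comm]) N
  simp only [nsmul_eq_mul] at h
  exact h

end

end MPadcTT
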