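import Pool.Agent.Lib.MP_adc574_ag_TT.T1
import Pool.Agent.Lib.MP_adc574_ag_TT.T2

/-! LEAF T3: one more variable, I: semilinearity -/

set_option autoImplicit false

namespace MPadcTT

open PowerSeries

universe u v w

variable {k : Type u} [Field k] [CharZero k] {H : ℕ → Type v} [∀ n, AddCommGroup (H n)] [∀ n, Module k (H n)]
  {C : ∀ n, Cn k (H n)} {mu : ∀ n m, H n →ₗ[k] H m →ₗ[k] H (n + m)} {β : ℕ → Type} [∀ n, Fintype (β n)]
  {b : ∀ n, Module.Basis (β n) k (H n)} {R : Type w} [CommRing R] [Algebra k R] (T : Tr C mu b R)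
  (D : Derivation ℤ k k)

/-- Proof. `a ↦ tay k (fun n => T.σ (D^[n] a))` is a ring homomorphism: `iter_der_mul` and `tay_mul`; `D 1 = 0`. -/
theorem sig_step : ∃ σ' : k →+* PowerSeries R, ∀ a, σ' a = tay k (fun n => T.σ ((⇑D)^[n] a)) := by
  have h0 : ∀ n, (⇑D)^[n] 0 = 0 := fun n => Function.iterate_fixed (map_zero D) n
  refine ⟨{
    toFun := fun a => tay k (fun n => T.σ ((⇑D)^[n] a))
    map_one' := ?_
    map_mul' := ?_
    map_zero' := ?_
    map_add' := ?_ }, fun a => rfl⟩
  · ext n
    rw [coeff_tay, PowerSeries.coeff_one]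
    rcases n with _ | n
    · rw [if_pos rfl, Function.iterate_zero, id_eq, map_one, mul_one, Nat.factorial_zero, Nat.cast_one,
        inv_one, map_one]
    · rw [if_neg (Nat.succ_ne_zero n), Function.iterate_succ_apply, D.map_one_eq_zero, h0, map_zero, mul_zero]
  · intro x y
    rw [tay_mul]
    refine congrArg (tay k) (funext fun N => ?_)
    rw [iter_der_mul, map_sum]
    refine Finset.sum_congr rfl fun p _ => ?_
    rw [map_mul, map_mul, map_natCast]
  · ext n
    rw [coeff_tay, h0, map_zero, mul_zero, map_zero]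
  · intro x y
    rw [← tay_add]
    refine congrArg (tay k) (funext fun N => ?_)
    rw [iterate_map_add, map_add]

/-- Proof. `iter_smul`, `T.add` (for sums and natural multiples: `T.T n · i` is additive), `T.smul`, `tay_mul`. -/
theorem smul_step (n : ℕ) (a : k) (x : H n) (i : β n) :
    tay k (fun N => T.T n (((C n).c D)^[N] (a • x)) i) =
      tay k (fun N => T.σ ((⇑D)^[N] a)) * tay k (fun N => T.T n (((C n).c D)^[N] x) i) := by
  have hz : T.T n 0 i = 0 := by
    have h := T.smul n 0 0 i
    rw [zero_smul, map_zero, zero_mul] at h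
    exact h
  let φ : H n →+ R := { toFun := fun z => T.T n z i, map_zero' := hz, map_add' := fun y z => T.add n y z i }
  rw [tay_mul]
  refine congrArg (tay k) (funext fun N => ?_)
  rw [iter_smul]
  show φ _ = _
  rw [map_sum]
  refine Finset.sum_congr rfl fun p _ => ?_
  rw [map_nsmul, nsmul_eq_mul]
  show _ * T.T n _ i = _
  rw [T.smul]

end MPadcTT
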