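import Pool.Agent.Lib.MP_adc574_ag_TT.T1
import Pool.Agent.Lib.MP_adc574_ag_TT.T2

/-! LEAF T4: one more variable, II: products -/

set_option autoImplicit false

namespace MPadcTT

open PowerSeries

universe u v w

variable {k : Type u} [Field k] [CharZero k] {H : ℕ → Type v} [∀ n, AddCommGroup (H n)] [∀ n, Module k (H n)]
  {C : ∀ n, Cn k (H n)} {mu : ∀ n m, H n →ₗ[k] H m →ₗ[k] H (n + m)} {β : ℕ → Type} [∀ n, Fintype (β n)]
  {b : ∀ n, Module.Basis (β n) k (H n)} {R : Type w} [CommRing R] [Algebra k R] (T : Tr C mu b R)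
  (D : Derivation ℤ k k)

omit [CharZero k] in
private theorem T4_hom (n : ℕ) (i : β n) : ∃ F : H n →+ R, ∀ x, F x = T.T n x i := by
  refine ⟨AddMonoidHom.mk' (fun x => T.T n x i) fun x y => T.add n x y i, fun x => rfl⟩

omit [CharZero k] in
private theorem T4_sum (n : ℕ) (i : β n) {ι : Type*} (s : Finset ι) (c : ι → ℕ) (x : ι → H n) :
    T.T n (∑ p ∈ s, c p • x p) i = ∑ p ∈ s, ((c p : ℕ) : R) * T.T n (x p) i := by
  obtain ⟨F, hF⟩ := T4_hom T n i
  rw [← hF, map_sum]
  refine Finset.sum_congr rfl fun p _ => ?_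
  rw [map_nsmul, hF, nsmul_eq_mul]

/-- Proof. `iter_mu`, additivity of `T.T _ · c`, `T.mul`; interchange the sums; `tay_sum`, `tay_smul`, `tay_mul`.
(`algebraMap k (PowerSeries R) a = C (algebraMap k R a)`: `PowerSeries.algebraMap_apply`.) -/
theorem mul_step (hmu : ∀ D n m x y, (C (n + m)).c D (mu n m x y) = mu n m ((C n).c D x) y + mu n m x ((C m).c D y))
    (n m : ℕ) (x : H n) (y : H m) (c : β (n + m)) :
    tay k (fun N => T.T (n + m) (((C (n + m)).c D)^[N] (mu n m x y)) c) =
      ∑ i, ∑ j, algebraMap k (PowerSeries R) ((b (n + m)).repr (mu n m (b n i) (b m j)) c) *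
        (tay k (fun N => T.T n (((C n).c D)^[N] x) i) * tay k (fun N => T.T m (((C m).c D)^[N] y) j)) := by
  have h1 : (fun N => T.T (n + m) (((C (n + m)).c D)^[N] (mu n m x y)) c) = fun N =>
      ∑ i ∈ (Finset.univ : Finset (β n)), ∑ j ∈ (Finset.univ : Finset (β m)),
        algebraMap k R ((b (n + m)).repr (mu n m (b n i) (b m j)) c) *
          ∑ p ∈ Finset.HasAntidiagonal.antidiagonal N, ((N.choose p.1 : ℕ) : R) *
            (T.T n (((C n).c D)^[p.1] x) i * T.T m (((C m).c D)^[p.2] y) j) := by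
    funext N
    rw [iter_mu hmu D n m N x y, T4_sum T]
    have h2 : ∀ p ∈ Finset.HasAntidiagonal.antidiagonal N, ((N.choose p.1 : ℕ) : R) *
        T.T (n + m) (mu n m (((C n).c D)^[p.1] x) (((C m).c D)^[p.2] y)) c =
        ∑ i, ∑ j, algebraMap k R ((b (n + m)).repr (mu n m (b n i) (b m j)) c) *
          (((N.choose p.1 : ℕ) : R) * (T.T n (((C n).c D)^[p.1] x) i * T.T m (((C m).c D)^[p.2] y) j)) := by
      intro p _
      rw [T.mul, Finset.mul_sum]
      refine Finset.sum_congr rfl fun i _ => ?_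
      rw [Finset.mul_sum]
      exact Finset.sum_congr rfl fun j _ => mul_left_comm _ _ _
    rw [Finset.sum_congr rfl h2, Finset.sum_comm]
    refine Finset.sum_congr rfl fun i _ => ?_
    rw [Finset.sum_comm]
    refine Finset.sum_congr rfl fun j _ => ?_
    rw [Finset.mul_sum]
  rw [h1, tay_sum]
  refine Finset.sum_congr rfl fun i _ => ?_
  rw [tay_sum]
  refine Finset.sum_congr rfl fun j _ => ?_
  rw [tay_smul, tay_mul, PowerSeries.algebraMap_apply]

end MPadcTT
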