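import Pool.Agent.Lib.MP_adc574_ag_TT.T1

/-! LEAF T5: the coefficients of a determinant of series -/

set_option autoImplicit false

namespace MPadcTT

open PowerSeries

universe u v w

variable (k : Type u) [Field k] [CharZero k] {V : Type v} {R : Type w} [CommRing R] [Algebra k R] {ι : Type}
  [Fintype ι] [DecidableEq ι]

private theorem T5_prod {R A : Type*} [CommRing R] [CommRing A] [Algebra R A] (D : Derivation R A A) {κ : Type*}
    [DecidableEq κ] (s : Finset κ) (f : κ → A) :
    D (∏ i ∈ s, f i) = ∑ j ∈ s, ∏ i ∈ s, (if i = j then D (f i) else f i) := by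
  induction s using Finset.induction_on with
  | empty => rw [Finset.prod_empty, Finset.sum_empty, Derivation.map_one_eq_zero]
  | insert a s ha ih =>
    have h1 : ∏ i ∈ s, (if i = a then D (f i) else f i) = ∏ i ∈ s, f i :=
      Finset.prod_congr rfl fun i hi => if_neg (ne_of_mem_of_not_mem hi ha)
    have h2 : ∀ j ∈ s, ∏ i ∈ insert a s, (if i = j then D (f i) else f i) =
        f a * ∏ i ∈ s, (if i = j then D (f i) else f i) := fun j hj => by
      rw [Finset.prod_insert ha, if_neg (ne_of_mem_of_not_mem hj ha).symm]
    rw [Finset.prod_insert ha, Derivation.leibniz, Finset.sum_insert ha, Finset.prod_insert ha, if_pos rfl, h1,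
      Finset.sum_congr rfl h2, ← Finset.mul_sum, ← ih, smul_eq_mul, smul_eq_mul]
    ring

private theorem T5_det {R A : Type*} [CommRing R] [CommRing A] [Algebra R A] (D : Derivation R A A) {κ : Type*}
    [Fintype κ] [DecidableEq κ] (M : κ → κ → A) :
    D (Matrix.of M).det = ∑ j₀, (Matrix.of fun i j => if j = j₀ then D (M i j) else M i j).det := by
  simp only [Matrix.det_apply, Matrix.of_apply]
  rw [map_sum, Finset.sum_comm]
  refine Finset.sum_congr rfl fun σ _ => ?_
  rw [Units.smul_def, map_zsmul, T5_prod, Finset.smul_sum]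
  rfl

/-- Proof. The Leibniz formula for the determinant and the product rule for the derivation `d⁄dX R` (induction over a finite
product). The derivative of the entry `tay k (fun n => L i (c^[n] (x j)))` is `tay k (fun n => L i (c^[n] (c (x j))))`
(`d_tay`, `Function.iterate_succ_apply`). -/
theorem d_det (c : V → V) (L : ι → V → R) (x : ι → V) :
    d⁄dX R (Matrix.of fun i j => tay k (fun n => L i (c^[n] (x j)))).det =
      ∑ j₀, (Matrix.of fun i j => tay k (fun n => L i (c^[n] (Function.update x j₀ (c (x j₀)) j)))).det := by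
  rw [T5_det]
  refine Finset.sum_congr rfl fun j₀ _ => congrArg Matrix.det ?_
  ext1 i j
  rw [Matrix.of_apply, Matrix.of_apply]
  by_cases h : j = j₀
  · rw [if_pos h, h, Function.update_self, d_tay]
    rfl
  · rw [if_neg h, Function.update_of_ne h]

/-- Proof. `constantCoeff` is a ring homomorphism (`RingHom.map_det`), `coeff_zero_tay`. -/
theorem const_det (c : V → V) (L : ι → V → R) (x : ι → V) :
    constantCoeff (Matrix.of fun i j => tay k (fun n => L i (c^[n] (x j)))).det =
      (Matrix.of fun i j => L i (x j)).det := by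
  rw [RingHom.map_det]
  refine congrArg Matrix.det ?_
  ext1 i j
  rw [RingHom.mapMatrix_apply, Matrix.map_apply, Matrix.of_apply, Matrix.of_apply, coeff_zero_tay]
  rfl

/-- Proof. Induction on `n` (for all `x`): `coeff_derivative` and `d_det` give
`coeff (n + 1) (det x) * (n + 1) = ∑ j₀, coeff n (det (update x j₀ ..))`. -/
theorem coeff_det (c : V → V) (L : ι → V → R) (n : ℕ) (x : ι → V) :
    coeff n (Matrix.of fun i j => tay k (fun n => L i (c^[n] (x j)))).det =
      algebraMap k R ((n.factorial : k)⁻¹) * (dl c)^[n] (fun x => (Matrix.of fun i j => L i (x j)).det) x := by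
  induction n generalizing x with
  | zero =>
    rw [coeff_zero_eq_constantCoeff_apply, const_det, Nat.factorial_zero, Nat.cast_one, inv_one, map_one, one_mul]
    rfl
  | succ n ih =>
    have h1 := coeff_derivative (Matrix.of fun i j => tay k (fun n => L i (c^[n] (x j)))).det n
    rw [d_det, map_sum, Finset.sum_congr rfl fun j₀ _ => ih (Function.update x j₀ (c (x j₀))), ← Finset.mul_sum] at h1
    have h2 : ((n : k) + 1) ≠ 0 := Nat.cast_add_one_ne_zero n
    have h3 : ((n : R) + 1) * algebraMap k R ((n : k) + 1)⁻¹ = 1 := by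
      have h4 : ((n : R) + 1) = algebraMap k R ((n : k) + 1) := by
        rw [map_add, map_natCast, map_one]
      rw [h4, ← map_mul, mul_inv_cancel₀ h2, map_one]
    have h5 : algebraMap k R (((n + 1).factorial : k)⁻¹) =
        algebraMap k R ((n : k) + 1)⁻¹ * algebraMap k R ((n.factorial : k)⁻¹) := by
      rw [← map_mul, Nat.factorial_succ, Nat.cast_mul, mul_inv, Nat.cast_add, Nat.cast_one]
    rw [h5, Function.iterate_succ_apply', mul_assoc, dl_apply, h1]
    rw [mul_comm (algebraMap k R ((n : k) + 1)⁻¹), mul_assoc, h3, mul_one]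

end MPadcTT
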