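import Pool.Agent.Lib.MP_adc574_ag_TT.T5

/-! LEAF T6: one more variable, III: the condition `van` and the represented words -/

set_option autoImplicit false

namespace MPadcTT

open PowerSeries

universe u v w

variable {k : Type u} [Field k] [CharZero k] {V : Type v} [AddCommGroup V] [Module k V] {R : Type w} [CommRing R]
  [Algebra k R] {ι : Type} [Fintype ι] [DecidableEq ι]

/-- `dls` commutes with additive maps applied to the values. Proof: induction on the word, `map_sum`. -/
theorem dls_map (C : Cn k V) {R' : Type*} [AddCommMonoid R'] (κ : R →+ R') (w : List (Derivation ℤ k k)) (Ψ : (ι → V) → R)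
    (x : ι → V) : κ (dls C w Ψ x) = dls C w (fun x => κ (Ψ x)) x := by
  induction w generalizing x with
  | nil => rfl
  | cons D w ih =>
    rw [dls_cons, dls_cons, dl_apply, dl_apply, map_sum]
    exact Finset.sum_congr rfl fun j _ => ih _

/-- Proof. `dls_append` with `List.replicate n D`: `dls C (List.replicate n D) = (dl (C.c D))^[n]`. -/
theorem dls_replicate (C : Cn k V) (D : Derivation ℤ k k) (n : ℕ) (Ψ : (ι → V) → R) :
    dls C (List.replicate n D) Ψ = (dl (C.c D))^[n] Ψ := by
  induction n with
  | zero => rfl
  | succ n ih =>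
    rw [List.replicate_succ, dls_cons, ih, Function.iterate_succ_apply']

/-- Proof. `PowerSeries.ext`: by `dls_map` for `coeff n` and `coeff_det` the coefficient of
`dls C w (det of series) x` is `algebraMap .. * dls C w ((dl (C.c D))^[n] Ψ) x`, and this is `dls C (w ++ List.replicate n D) Ψ x = 0`. -/
theorem van_step (C : Cn k V) (D : Derivation ℤ k k) (L : ι → V → R) (x : ι → V)
    (h : ∀ w, dls C w (fun x : ι → V => (Matrix.of fun i j => L i (x j)).det) x = 0) (w : List (Derivation ℤ k k)) :
    dls C w (fun x : ι → V => (Matrix.of fun i j => tay k (fun n => L i ((C.c D)^[n] (x j)))).det) x = 0 := by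
  ext n
  have h1 := dls_map C ((coeff n : PowerSeries R →ₗ[R] R).toAddMonoidHom) w
    (fun x : ι → V => (Matrix.of fun i j => tay k (fun n => L i ((C.c D)^[n] (x j)))).det) x
  have h2 : (fun x : ι → V => (coeff n : PowerSeries R →ₗ[R] R).toAddMonoidHom
      (Matrix.of fun i j => tay k (fun n => L i ((C.c D)^[n] (x j)))).det) =
      fun x => AddMonoidHom.mulLeft (algebraMap k R ((n.factorial : k)⁻¹))
        ((dl (C.c D))^[n] (fun x : ι → V => (Matrix.of fun i j => L i (x j)).det) x) := by
    funext y
    exact coeff_det k (C.c D) L n y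
  have h3 := dls_map C (AddMonoidHom.mulLeft (algebraMap k R ((n.factorial : k)⁻¹))) w
    ((dl (C.c D))^[n] (fun x : ι → V => (Matrix.of fun i j => L i (x j)).det)) x
  have h4 : dls C w ((dl (C.c D))^[n] (fun x : ι → V => (Matrix.of fun i j => L i (x j)).det)) x = 0 := by
    rw [← dls_replicate C D n, ← dls_append]
    exact h _
  rw [h4, map_zero] at h3
  rw [h2, ← h3] at h1
  rw [map_zero]
  exact h1

end MPadcTT
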