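import Pool.Agent.Lib.MP_adc574_ag_TT.T0
import Pool.Agent.Lib.MP_adc574_ag_TT.T3
import Pool.Agent.Lib.MP_adc574_ag_TT.T4
import Pool.Agent.Lib.MP_adc574_ag_TT.T6

/-! LEAF T7: one more variable, IV: the transport with values in `R[[s]]` -/

set_option autoImplicit false

namespace MPadcTT

open PowerSeries

universe u v w

variable {k : Type u} [Field k] [CharZero k] {H : ℕ → Type v} [∀ n, AddCommGroup (H n)] [∀ n, Module k (H n)]
  {C : ∀ n, Cn k (H n)} {mu : ∀ n m, H n →ₗ[k] H m →ₗ[k] H (n + m)} {β : ℕ → Type} [∀ n, Fintype (β n)]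
  {b : ∀ n, Module.Basis (β n) k (H n)} {R : Type w} [CommRing R] [Algebra k R]

omit [CharZero k] in
private theorem T7_ev (T : Tr C mu b R) (D : Derivation ℤ k k) {n : ℕ} (lam : H n →ₗ[k] k) (x : H n) :
    ev b lam (fun i => tay k (fun N => T.T n (((C n).c D)^[N] x) i)) =
      tay k (fun N => ev b lam (T.T n (((C n).c D)^[N] x))) := by
  unfold ev
  rw [tay_sum]
  refine Finset.sum_congr rfl fun i _ => ?_
  rw [tay_smul, PowerSeries.algebraMap_apply]

/-- Proof. `T' n x i = tay k (fun N => T.T n ((C n).c D)^[N] x i)`, `σ'` from `sig_step`, `ε' = T.ε.comp constantCoeff`.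
`add`: `iter_add`, `tay_add`; `smul`: `smul_step`; `mul`: `mul_step`; `ε`: `coeff_zero_tay`. `ev b (lam i) (T' n x) = tay k (fun N => ev b (lam i) (T.T n (..^[N] x)))`
(`tay_sum`, `tay_smul`), so `van` is `van_step` for `L i x = ev b (lam i) (T.T n x)` applied to `T.van`.
`Rep`: if `κ` represents `w`, then `κ ∘ coeff 0` represents `w` and `κ ∘ coeff 1` represents `D :: w`: `coeff_det` for `n = 0, 1` and `dls_cons`, `dl_apply`, `map_sum`. -/
theorem tr_step (hmu : ∀ D n m x y, (C (n + m)).c D (mu n m x y) = mu n m ((C n).c D x) y + mu n m x ((C m).c D y))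
    (T : Tr C mu b R) (D : Derivation ℤ k k) :
    ∃ T' : Tr C mu b (PowerSeries R), ∀ w, T.Rep w → T'.Rep w ∧ T'.Rep (D :: w) := by
  obtain ⟨σ', hσ'⟩ := sig_step T D
  have hev : ∀ (n : ℕ) (ι : Type) [Fintype ι] [DecidableEq ι] (lam : ι → H n →ₗ[k] k) (x : ι → H n),
      (Matrix.of fun i j => ev b (lam i) (fun i' => tay k (fun N => T.T n (((C n).c D)^[N] (x j)) i'))) =
        Matrix.of fun i j => tay k (fun N => ev b (lam i) (T.T n (((C n).c D)^[N] (x j)))) := by
    intro n ι _ _ lam x
    exact congrArg Matrix.of (funext fun i => funext fun j => T7_ev T D (lam i) (x j))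
  obtain ⟨T', hT'⟩ : ∃ T' : Tr C mu b (PowerSeries R),
      ∀ n x i, T'.T n x i = tay k (fun N => T.T n (((C n).c D)^[N] x) i) := by
    refine ⟨⟨σ', fun n x i => tay k (fun N => T.T n (((C n).c D)^[N] x) i), ?_, ?_, ?_,
      T.ε.comp constantCoeff, ?_, ?_, ?_⟩, fun n x i => rfl⟩
    · intro n x y i
      simp only [iter_add, T.add]
      exact tay_add k _ _
    · intro n a x i
      rw [hσ']
      exact smul_step T D n a x i
    · intro n m x y c
      exact mul_step T D hmu n m x y c
    · intro a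
      have h1 : constantCoeff (algebraMap k (PowerSeries R) a) = algebraMap k R a := by
        rw [PowerSeries.algebraMap_apply, constantCoeff_C]
      rw [RingHom.comp_apply, h1, T.εa]
    · intro n x i
      rw [RingHom.comp_apply, coeff_zero_tay]
      exact T.εT n x i
    · intro n ι _ _ lam x hx w
      have h := van_step (R := R) (C n) D (fun i x => ev b (lam i) (T.T n x)) x
        (T.van n ι lam x hx) w
      have h2 : (fun x : ι → H n => (Matrix.of fun i j => ev b (lam i)
          (fun i' => tay k (fun N => T.T n (((C n).c D)^[N] (x j)) i'))).det) =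
          fun x : ι → H n => (Matrix.of fun i j => tay k (fun N => ev b (lam i)
            (T.T n (((C n).c D)^[N] (x j))))).det := by
        funext x
        rw [hev]
      rw [h2]
      exact h
  have hPs : ∀ (n : ℕ) (ι : Type) [Fintype ι] [DecidableEq ι] (lam : ι → H n →ₗ[k] k) (x : ι → H n),
      T'.Ps lam x = (Matrix.of fun i j => tay k (fun N => ev b (lam i)
        (T.T n (((C n).c D)^[N] (x j))))).det := by
    intro n ι _ _ lam x
    rw [← hev]
    unfold Tr.Ps
    have h3 : ∀ j, T'.T n (x j) = fun i' => tay k (fun N => T.T n (((C n).c D)^[N] (x j)) i') :=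
      fun j => funext fun i' => hT' n (x j) i'
    simp only [h3]
  refine ⟨T', fun w hw => ?_⟩
  obtain ⟨κ, hκ⟩ := hw
  constructor
  · refine ⟨κ.comp (coeff 0 : PowerSeries R →ₗ[R] R).toAddMonoidHom, ?_⟩
    intro n ι _ _ lam x
    rw [← hκ, hPs, AddMonoidHom.comp_apply, LinearMap.toAddMonoidHom_coe,
      coeff_det k ((C n).c D) (fun i x => ev b (lam i) (T.T n x)) 0 x, Nat.factorial_zero,
      Nat.cast_one, inv_one, map_one, one_mul, Function.iterate_zero, id_eq]
    rfl
  · refine ⟨κ.comp (coeff 1 : PowerSeries R →ₗ[R] R).toAddMonoidHom, ?_⟩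
    intro n ι _ _ lam x
    rw [hPs, dls_cons, dl_apply, AddMonoidHom.comp_apply, LinearMap.toAddMonoidHom_coe,
      coeff_det k ((C n).c D) (fun i x => ev b (lam i) (T.T n x)) 1 x, Nat.factorial_one,
      Nat.cast_one, inv_one, map_one, one_mul, Function.iterate_one, dl_apply, map_sum]
    exact Finset.sum_congr rfl fun j _ => hκ n ι lam _

end MPadcTT
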