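import Pool.Agent.Lib.MP_adc574_ag_TT.D0

/-! LEAF T9: stable subspaces; functionals -/

set_option autoImplicit false

namespace MPadcTT

universe u v w

variable {k : Type u} [Field k] {H : ℕ → Type v} [∀ n, AddCommGroup (H n)] [∀ n, Module k (H n)]
  {C : ∀ n, Cn k (H n)} {mu : ∀ n m, H n →ₗ[k] H m →ₗ[k] H (n + m)} {β : ℕ → Type} [∀ n, Fintype (β n)]
  {b : ∀ n, Module.Basis (β n) k (H n)} {R : Type w} [CommRing R] [Algebra k R]

private theorem T9_dls {n : ℕ} (V : Submodule k (H n)) (hV : ∀ D, ∀ x ∈ V, (C n).c D x ∈ V)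
    (lam : H n →ₗ[k] k) (hl : ∀ x ∈ V, lam x = 0) (w : List (Derivation ℤ k k)) :
    ∀ y : Unit → H n, y () ∈ V → dls (C n) w (Dt fun _ : Unit => lam) y = 0 := by
  induction w with
  | nil =>
    intro y hy
    rw [dls_nil, Dt, Matrix.det_unique, Matrix.of_apply]
    exact hl _ hy
  | cons D w ih =>
    intro y hy
    rw [dls_cons, dl_apply]
    refine Finset.sum_eq_zero fun j _ => ih _ ?_
    have hj : j = () := rfl
    subst hj
    rw [Function.update_self]
    exact hV D _ hy

/-- Proof. `T.van` with `ι = Unit`, the word `[]`: `dls (C n) w (Dt lam) x = lam (iterated derivatives of x) = 0` by induction on `w` (for all `x` in `V`), the determinant of a matrix of size 1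
(`Matrix.det_unique`). -/
theorem ev_of_stable (T : Tr C mu b R) {n : ℕ} (V : Submodule k (H n)) (hV : ∀ D, ∀ x ∈ V, (C n).c D x ∈ V)
    (lam : H n →ₗ[k] k) (hl : ∀ x ∈ V, lam x = 0) (x : H n) (hx : x ∈ V) : ev b lam (T.T n x) = 0 := by
  have h := T.van n Unit (fun _ => lam) (fun _ => x)
    (fun w => T9_dls V hV lam hl w (fun _ => x) hx) []
  rw [dls_nil, Matrix.det_unique, Matrix.of_apply] at h
  exact h

theorem ev_add {n : ℕ} (lam lam' : H n →ₗ[k] k) (y : β n → R) : ev b (lam + lam') y = ev b lam y + ev b lam' y := by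
  unfold ev
  rw [← Finset.sum_add_distrib]
  exact Finset.sum_congr rfl fun i _ => by rw [LinearMap.add_apply, map_add, add_mul]

theorem ev_sum {n : ℕ} {ι : Type*} (s : Finset ι) (a : ι → k) (lam : ι → H n →ₗ[k] k) (y : β n → R) :
    ev b (∑ i ∈ s, a i • lam i) y = ∑ i ∈ s, algebraMap k R (a i) * ev b (lam i) y := by
  unfold ev
  simp only [Finset.mul_sum]
  rw [Finset.sum_comm]
  refine Finset.sum_congr rfl fun j _ => ?_
  rw [LinearMap.sum_apply, map_sum, Finset.sum_mul]
  refine Finset.sum_congr rfl fun i _ => ?_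
  rw [LinearMap.smul_apply, smul_eq_mul, map_mul, mul_assoc]

/-- The functional `coord i` gives the coordinate. -/
theorem ev_coord {n : ℕ} (i : β n) (y : β n → R) : ev b ((b n).coord i) y = y i := by
  classical
  unfold ev
  rw [Finset.sum_eq_single i]
  · rw [Module.Basis.coord_apply, Module.Basis.repr_self, Finsupp.single_eq_same, map_one, one_mul]
  · intro j _ hj
    rw [Module.Basis.coord_apply, Module.Basis.repr_self, Finsupp.single_eq_of_ne (Ne.symm hj),
      map_zero, zero_mul]
  · intro h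
    exact absurd (Finset.mem_univ i) h

/-- Proof. `T.εa`, `T.εT`, `map_sum`, `(b n).sum_repr x`. -/
theorem eps_ev (T : Tr C mu b R) {n : ℕ} (lam : H n →ₗ[k] k) (x : H n) : T.ε (ev b lam (T.T n x)) = lam x := by
  unfold ev
  rw [map_sum]
  conv_rhs => rw [← (b n).sum_repr x, map_sum]
  refine Finset.sum_congr rfl fun i _ => ?_
  rw [map_mul, T.εa, T.εT, map_smul, smul_eq_mul, mul_comm]

end MPadcTT
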