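import Pool.Agent.Lib.MP_adc574_ag_TT.T9

/-!
# Opposite subspaces over the fraction field: definitions
-/

set_option autoImplicit false

namespace MPadcTT

universe u v w

section

variable {k : Type u} [Field k] {H : ℕ → Type v} [∀ n, AddCommGroup (H n)] [∀ n, Module k (H n)]
  {C : ∀ n, Cn k (H n)} {mu : ∀ n m, H n →ₗ[k] H m →ₗ[k] H (n + m)} {β : ℕ → Type} [∀ n, Fintype (β n)]
  {b : ∀ n, Module.Basis (β n) k (H n)} {R : Type w} [CommRing R] [Algebra k R]

/-- `T` moves `F` off `P`. -/
def Opp (T : Tr C mu b R) {n : ℕ} (F P : Submodule k (H n)) : Prop :=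
  ∃ (ι : Type) (_ : Fintype ι) (_ : DecidableEq ι) (lam : ι → H n →ₗ[k] k) (f : ι → H n),
    (∀ i, ∀ x ∈ P, lam i x = 0) ∧ (∀ j, f j ∈ F) ∧ Fintype.card ι = Module.finrank k F ∧ T.Ps lam f ≠ 0

variable (K : Type w) [Field K] [Algebra R K]

/-- `T x` over `K`. -/
noncomputable def TK (T : Tr C mu b R) {n : ℕ} (x : H n) : β n → K := fun i => algebraMap R K (T.T n x i)

variable (b R) in
/-- `x` over `K`. -/
noncomputable def cK {n : ℕ} (x : H n) : β n → K := fun i => algebraMap R K (algebraMap k R ((b n).repr x i))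

/-- The span of `T F`. -/
noncomputable def GK (T : Tr C mu b R) {n : ℕ} (F : Submodule k (H n)) : Submodule K (β n → K) :=
  Submodule.span K (TK K T '' (F : Set (H n)))

variable (b R) in
/-- The span of `P`. -/
noncomputable def QK {n : ℕ} (P : Submodule k (H n)) : Submodule K (β n → K) :=
  Submodule.span K (cK b R K '' (P : Set (H n)))

variable (b R mu) in
/-- The product over `K`. -/
noncomputable def muK (n m : ℕ) (y : β n → K) (z : β m → K) : β (n + m) → K := fun c =>
  ∑ i, ∑ j, algebraMap R K (algebraMap k R ((b (n + m)).repr (mu n m (b n i) (b m j)) c)) * (y i * z j)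

end

end MPadcTT
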