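import Pool.Agent.Lib.MP_adc574_ag_TT.U0

/-! LEAF U1: the product over `K` -/

set_option autoImplicit false

namespace MPadcTT

universe u v w

variable {k : Type u} [Field k] {H : ℕ → Type v} [∀ n, AddCommGroup (H n)] [∀ n, Module k (H n)]
  {C : ∀ n, Cn k (H n)} {mu : ∀ n m, H n →ₗ[k] H m →ₗ[k] H (n + m)} {β : ℕ → Type} [∀ n, Fintype (β n)]
  {b : ∀ n, Module.Basis (β n) k (H n)} {R : Type w} [CommRing R] [Algebra k R] (K : Type w) [Field K] [Algebra R K]

private theorem U1_span {K V1 V2 V3 : Type*} [Field K] [AddCommGroup V1] [Module K V1]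
    [AddCommGroup V2] [Module K V2] [AddCommGroup V3] [Module K V3] (M : V1 →ₗ[K] V2 →ₗ[K] V3)
    {s : Set V1} {t : Set V2} {W : Submodule K V3} (h : ∀ a ∈ s, ∀ b ∈ t, M a b ∈ W)
    {y : V1} {z : V2} (hy : y ∈ Submodule.span K s) (hz : z ∈ Submodule.span K t) :
    M y z ∈ W := by
  have h1 := Submodule.apply_mem_map₂ M hy hz
  rw [Submodule.map₂_span_span] at h1
  refine Submodule.span_le.mpr ?_ h1
  rintro _ ⟨a, ha, b, hb, rfl⟩
  exact h a ha b hb

private theorem U1_exists (n m : ℕ) : ∃ M : (β n → K) →ₗ[K] (β m → K) →ₗ[K] (β (n + m) → K),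
    ∀ y z, M y z = muK mu b R K n m y z := by
  refine ⟨LinearMap.mk₂ K (muK mu b R K n m) ?_ ?_ ?_ ?_, fun y z => rfl⟩
  · intro y y' z
    funext c
    unfold muK
    rw [Pi.add_apply, ← Finset.sum_add_distrib]
    refine Finset.sum_congr rfl fun i _ => ?_
    rw [← Finset.sum_add_distrib]
    refine Finset.sum_congr rfl fun j _ => ?_
    rw [Pi.add_apply]
    ring
  · intro a y z
    funext c
    unfold muK
    rw [Pi.smul_apply, smul_eq_mul, Finset.mul_sum]
    refine Finset.sum_congr rfl fun i _ => ?_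
    rw [Finset.mul_sum]
    refine Finset.sum_congr rfl fun j _ => ?_
    rw [Pi.smul_apply, smul_eq_mul]
    ring
  · intro y z z'
    funext c
    unfold muK
    rw [Pi.add_apply, ← Finset.sum_add_distrib]
    refine Finset.sum_congr rfl fun i _ => ?_
    rw [← Finset.sum_add_distrib]
    refine Finset.sum_congr rfl fun j _ => ?_
    rw [Pi.add_apply]
    ring
  · intro a y z
    funext c
    unfold muK
    rw [Pi.smul_apply, smul_eq_mul, Finset.mul_sum]
    refine Finset.sum_congr rfl fun i _ => ?_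
    rw [Finset.mul_sum]
    refine Finset.sum_congr rfl fun j _ => ?_
    rw [Pi.smul_apply, smul_eq_mul]
    ring

/-- Proof. `T.mul`. -/
theorem muK_TK (T : Tr C mu b R) {n m : ℕ} (x : H n) (y : H m) :
    muK mu b R K n m (TK K T x) (TK K T y) = TK K T (mu n m x y) := by
  funext c
  change ∑ i, ∑ j, _ = algebraMap R K (T.T (n + m) (mu n m x y) c)
  rw [T.mul, map_sum]
  refine Finset.sum_congr rfl fun i _ => ?_
  rw [map_sum]
  refine Finset.sum_congr rfl fun j _ => ?_
  rw [map_mul, map_mul]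
  rfl

/-- Proof. Expand `x`, `y` in the bases. -/
theorem muK_cK {n m : ℕ} (x : H n) (y : H m) :
    muK mu b R K n m (cK b R K x) (cK b R K y) = cK b R K (mu n m x y) := by
  funext c
  have e1 : mu n m x y = ∑ i, ∑ j, ((b n).repr x i * (b m).repr y j) • mu n m (b n i) (b m j) := by
    calc mu n m x y = mu n m (∑ i, (b n).repr x i • b n i) (∑ j, (b m).repr y j • b m j) := by
          rw [(b n).sum_repr, (b m).sum_repr]
      _ = _ := by
          rw [map_sum (mu n m), LinearMap.sum_apply]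
          refine Finset.sum_congr rfl fun i _ => ?_
          rw [map_sum]
          refine Finset.sum_congr rfl fun j _ => ?_
          rw [map_smul, map_smul, LinearMap.smul_apply, smul_smul, mul_comm]
  change ∑ i, ∑ j, _ = algebraMap R K (algebraMap k R ((b (n + m)).repr (mu n m x y) c))
  rw [e1, map_sum, Finsupp.finsetSum_apply, map_sum, map_sum]
  refine Finset.sum_congr rfl fun i _ => ?_
  rw [map_sum, Finsupp.finsetSum_apply, map_sum, map_sum]
  refine Finset.sum_congr rfl fun j _ => ?_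
  rw [map_smul, Finsupp.smul_apply, smul_eq_mul, map_mul, map_mul, map_mul, map_mul]
  change _ * (algebraMap R K (algebraMap k R ((b n).repr x i)) *
    algebraMap R K (algebraMap k R ((b m).repr y j))) = _
  ring

/-- Proof. `muK` is bilinear over `K`: `Submodule.span_induction` twice. -/
theorem muK_GK (T : Tr C mu b R) {n m : ℕ} {F : Submodule k (H n)} {F' : Submodule k (H m)}
    {F'' : Submodule k (H (n + m))} (h : ∀ x ∈ F, ∀ y ∈ F', mu n m x y ∈ F'') {y : β n → K} {z : β m → K}
    (hy : y ∈ GK K T F) (hz : z ∈ GK K T F') : muK mu b R K n m y z ∈ GK K T F'' := by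
  obtain ⟨M, hM⟩ := U1_exists (mu := mu) (b := b) (R := R) K n m
  rw [← hM]
  refine U1_span M ?_ hy hz
  rintro _ ⟨x, hx, rfl⟩ _ ⟨x', hx', rfl⟩
  rw [hM, muK_TK]
  exact Submodule.subset_span ⟨_, h x hx x' hx', rfl⟩

theorem muK_QK {n m : ℕ} {P : Submodule k (H n)} {P' : Submodule k (H m)} {P'' : Submodule k (H (n + m))}
    (h : ∀ x ∈ P, ∀ y ∈ P', mu n m x y ∈ P'') {y : β n → K} {z : β m → K}
    (hy : y ∈ QK b R K P) (hz : z ∈ QK b R K P') : muK mu b R K n m y z ∈ QK b R K P'' := by
  obtain ⟨M, hM⟩ := U1_exists (mu := mu) (b := b) (R := R) K n m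
  rw [← hM]
  refine U1_span M ?_ hy hz
  rintro _ ⟨x, hx, rfl⟩ _ ⟨x', hx', rfl⟩
  rw [hM, muK_cK]
  exact Submodule.subset_span ⟨_, h x hx x' hx', rfl⟩

/-- `muK` is bilinear (used for spans). -/
theorem exists_muK (n m : ℕ) : ∃ M : (β n → K) →ₗ[K] (β m → K) →ₗ[K] (β (n + m) → K),
    ∀ y z, M y z = muK mu b R K n m y z := by
  exact U1_exists K n m

end MPadcTT
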