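import Pool.Agent.Lib.MP_adc574_ag_TT.U0

/-! LEAF U2: dimensions -/

set_option autoImplicit false

namespace MPadcTT

universe u v w

variable {k : Type u} [Field k] {H : ℕ → Type v} [∀ n, AddCommGroup (H n)] [∀ n, Module k (H n)]
  {C : ∀ n, Cn k (H n)} {mu : ∀ n m, H n →ₗ[k] H m →ₗ[k] H (n + m)} {β : ℕ → Type} [∀ n, Fintype (β n)]
  {b : ∀ n, Module.Basis (β n) k (H n)} {R : Type w} [CommRing R] [IsDomain R] [Algebra k R] (K : Type w) [Field K]
  [Algebra R K] [IsFractionRing R K]

private theorem U2_sum {K : Type*} [Field K] {V : Type*} [AddCommGroup V] [Module k V] {γ : Type*} (A : V → γ → K)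
    (τ : k →+* K) (hadd : ∀ x y, A (x + y) = A x + A y) (hsm : ∀ (a : k) x, A (a • x) = τ a • A x) {ι : Type*}
    (s : Finset ι) (c : ι → k) (x : ι → V) : A (∑ i ∈ s, c i • x i) = ∑ i ∈ s, τ (c i) • A (x i) := by
  classical
  induction s using Finset.induction_on with
  | empty =>
    rw [Finset.sum_empty, Finset.sum_empty]
    have h := hsm 0 0
    rwa [map_zero, zero_smul, zero_smul] at h
  | insert a s ha ih => rw [Finset.sum_insert ha, Finset.sum_insert ha, hadd, hsm, ih]

private theorem U2_li {K : Type*} [Field K] {V : Type*} [AddCommGroup V] [Module k V] {γ : Type*} [Fintype γ]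
    (e : Module.Basis γ k V) (A : V → γ → K) (τ : k →+* K) (hadd : ∀ x y, A (x + y) = A x + A y)
    (hsm : ∀ (a : k) x, A (a • x) = τ a • A x) (hA : LinearIndependent K fun j => A (e j)) {ι : Type*} (f : ι → V)
    (hf : LinearIndependent k f) : LinearIndependent K fun j => A (f j) := by
  classical
  obtain ⟨φ, hφ⟩ := LinearMap.exists_leftInverse_of_injective _ (LinearMap.ker_eq_bot.2 hf)
  obtain ⟨ψ, hψ⟩ := LinearMap.exists_leftInverse_of_injective _ (LinearMap.ker_eq_bot.2 hA)
  have hφ1 : ∀ l, φ (f l) = Finsupp.single l 1 := by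
    intro l
    have h := LinearMap.congr_fun hφ (Finsupp.single l 1)
    rwa [LinearMap.comp_apply, Finsupp.linearCombination_single, one_smul, LinearMap.id_apply] at h
  have hψ1 : ∀ l, ψ (A (e l)) = Finsupp.single l 1 := by
    intro l
    have h := LinearMap.congr_fun hψ (Finsupp.single l 1)
    rwa [LinearMap.comp_apply, Finsupp.linearCombination_single, one_smul, LinearMap.id_apply] at h
  have hψ2 : ∀ x i, ψ (A x) i = τ (e.repr x i) := by
    intro x i
    conv_lhs => rw [← e.sum_repr x]
    rw [U2_sum A τ hadd hsm, map_sum, Finsupp.finsetSum_apply, Finset.sum_eq_single i]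
    · rw [map_smul, hψ1, Finsupp.smul_apply, Finsupp.single_eq_same, smul_eq_mul, mul_one]
    · intro j _ hj
      rw [map_smul, hψ1, Finsupp.smul_apply, Finsupp.single_eq_of_ne (Ne.symm hj), smul_zero]
    · intro h
      exact absurd (Finset.mem_univ i) h
  have key : ∀ (j : ι) (x : V), ∑ i, τ (φ (e i) j) * ψ (A x) i = τ (φ x j) := by
    intro j x
    conv_rhs => rw [← e.sum_repr x]
    rw [map_sum, Finsupp.finsetSum_apply, map_sum]
    refine Finset.sum_congr rfl fun i _ => ?_
    rw [hψ2, map_smul, Finsupp.smul_apply, smul_eq_mul, map_mul, mul_comm]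
  rw [linearIndependent_iff']
  intro s g hg j hj
  have h1 : ∑ i, τ (φ (e i) j) * ψ (∑ l ∈ s, g l • A (f l)) i = g j := by
    have h2 : ∀ i, ψ (∑ l ∈ s, g l • A (f l)) i = ∑ l ∈ s, g l * ψ (A (f l)) i := by
      intro i
      rw [map_sum, Finsupp.finsetSum_apply]
      refine Finset.sum_congr rfl fun l _ => ?_
      rw [map_smul, Finsupp.smul_apply, smul_eq_mul]
    simp only [h2, Finset.mul_sum]
    rw [Finset.sum_comm]
    have h3 : ∀ l ∈ s, ∑ i, τ (φ (e i) j) * (g l * ψ (A (f l)) i) = g l * τ (φ (f l) j) := by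
      intro l _
      rw [← key, Finset.mul_sum]
      refine Finset.sum_congr rfl fun i _ => ?_
      ring
    rw [Finset.sum_congr rfl h3, Finset.sum_eq_single j]
    · rw [hφ1, Finsupp.single_eq_same, map_one, mul_one]
    · intro l _ hl
      rw [hφ1, Finsupp.single_eq_of_ne (Ne.symm hl), map_zero, mul_zero]
    · intro h
      exact absurd hj h
  rw [hg, map_zero] at h1
  rw [← h1]
  simp only [Finsupp.coe_zero, Pi.zero_apply, mul_zero, Finset.sum_const_zero]

private theorem U2_fr {K : Type*} [Field K] {V : Type*} [AddCommGroup V] [Module k V] {γ : Type*} [Fintype γ]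
    (e : Module.Basis γ k V) (A : V → γ → K) (τ : k →+* K) (hadd : ∀ x y, A (x + y) = A x + A y)
    (hsm : ∀ (a : k) x, A (a • x) = τ a • A x) (hA : LinearIndependent K fun j => A (e j)) (F : Submodule k V) :
    Module.finrank K (Submodule.span K (A '' (F : Set V))) = Module.finrank k F := by
  have : Module.Finite k V := Module.Finite.of_basis e
  set f := Module.finBasis k F with hf
  have h1 : LinearIndependent k fun j => (f j : V) := f.linearIndependent.map' F.subtype F.ker_subtype
  have h2 := U2_li e A τ hadd hsm hA _ h1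
  have h3 : Submodule.span K (A '' (F : Set V)) = Submodule.span K (Set.range fun j => A (f j : V)) := by
    refine le_antisymm (Submodule.span_le.2 ?_) (Submodule.span_mono ?_)
    · rintro _ ⟨x, hx, rfl⟩
      have h4 : x = ∑ j, f.repr ⟨x, hx⟩ j • (f j : V) := by
        have h5 := congrArg Subtype.val (f.sum_repr ⟨x, hx⟩)
        rw [Submodule.coe_sum] at h5
        exact h5.symm
      rw [h4, U2_sum A τ hadd hsm]
      refine Submodule.sum_mem _ fun j _ => Submodule.smul_mem _ _ (Submodule.subset_span ⟨j, rfl⟩)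
    · rintro _ ⟨j, rfl⟩
      exact ⟨f j, (f j).2, rfl⟩
  rw [h3, finrank_span_eq_card h2, Fintype.card_fin]

private theorem U2_top {K : Type*} [Field K] {V : Type*} [AddCommGroup V] [Module k V] {γ : Type*} [Fintype γ]
    (e : Module.Basis γ k V) (A : V → γ → K) (τ : k →+* K) (hadd : ∀ x y, A (x + y) = A x + A y)
    (hsm : ∀ (a : k) x, A (a • x) = τ a • A x) (hA : LinearIndependent K fun j => A (e j)) :
    Submodule.span K (A '' ((⊤ : Submodule k V) : Set V)) = ⊤ := by
  refine Submodule.eq_top_of_finrank_eq ?_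
  rw [U2_fr e A τ hadd hsm hA, finrank_top, Module.finrank_eq_card_basis e, Module.finrank_fintype_fun_eq_card]

private theorem U2_Tadd {K : Type w} [Field K] [Algebra R K] (T : Tr C mu b R) {n : ℕ} (x y : H n) :
    TK K T (x + y) = TK K T x + TK K T y := by
  funext i
  simp only [TK, Pi.add_apply, T.add, map_add]

private theorem U2_Tsmul {K : Type w} [Field K] [Algebra R K] (T : Tr C mu b R) {n : ℕ} (a : k) (x : H n) :
    TK K T (a • x) = ((algebraMap R K).comp T.σ) a • TK K T x := by
  funext i
  simp only [TK, Pi.smul_apply, T.smul, map_mul, RingHom.comp_apply, smul_eq_mul]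

private theorem U2_Tbas {K : Type w} [Field K] [Algebra R K] [IsFractionRing R K] (T : Tr C mu b R) (n : ℕ) :
    LinearIndependent K fun j => TK K T (b n j) := by
  classical
  set M : Matrix (β n) (β n) R := Matrix.of fun j i => T.T n (b n j) i with hM
  have h1 : T.ε M.det = 1 := by
    rw [RingHom.map_det]
    have h2 : T.ε.mapMatrix M = 1 := by
      ext j i
      rw [RingHom.mapMatrix_apply, Matrix.map_apply, hM, Matrix.of_apply, T.εT, Module.Basis.repr_self,
        Finsupp.single_apply, Matrix.one_apply]
    rw [h2, Matrix.det_one]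
  have h3 : M.det ≠ 0 := by
    intro h
    rw [h, map_zero] at h1
    exact zero_ne_one h1
  have h4 : (M.map (algebraMap R K)).det ≠ 0 := by
    have h5 : (M.map (algebraMap R K)).det = algebraMap R K M.det := by
      rw [RingHom.map_det]
      rfl
    rw [h5]
    intro h
    exact h3 ((IsFractionRing.injective R K) (h.trans (map_zero _).symm))
  exact Matrix.linearIndependent_rows_of_det_ne_zero h4

private theorem U2_cadd {K : Type w} [Field K] [Algebra R K] {n : ℕ} (x y : H n) :
    cK b R K (x + y) = cK b R K x + cK b R K y := by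
  funext i
  simp only [cK, Pi.add_apply, map_add, Finsupp.coe_add]

private theorem U2_csmul {K : Type w} [Field K] [Algebra R K] {n : ℕ} (a : k) (x : H n) :
    cK b R K (a • x) = ((algebraMap R K).comp (algebraMap k R)) a • cK b R K x := by
  funext i
  simp only [cK, Pi.smul_apply, map_smul, Finsupp.smul_apply, smul_eq_mul, map_mul, RingHom.comp_apply]

private theorem U2_cbas {K : Type w} [Field K] [Algebra R K] (n : ℕ) :
    LinearIndependent K fun j => cK b R K (b n j) := by
  classical
  have h4 : ((1 : Matrix (β n) (β n) K)).det ≠ 0 := by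
    rw [Matrix.det_one]
    exact one_ne_zero
  have h5 : (fun j => cK b R K (b n j)) = (1 : Matrix (β n) (β n) K).row := by
    funext j i
    simp only [cK, Module.Basis.repr_self, Finsupp.single_apply, Matrix.row, Matrix.one_apply]
    split_ifs <;> simp
  rw [h5]
  exact Matrix.linearIndependent_rows_of_det_ne_zero h4

/-- Proof. Extend `f` to a basis `g` of `H n`, indexed by `β n` (`Module.Basis.extend` and equality of cardinalities). The matrix `(T g_j)_i` over `R` has a nonzero determinant, because `ε` maps it to the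
matrix `((b n).repr g_j i)`, which is invertible; so the `TK g_j` are linearly independent over `K`. -/
theorem TK_indep (T : Tr C mu b R) {n : ℕ} {ι : Type*} (f : ι → H n) (hf : LinearIndependent k f) :
    LinearIndependent K fun j => TK K T (f j) := by
  exact U2_li (b n) (TK K T) _ (U2_Tadd T) (U2_Tsmul T) (U2_Tbas T n) f hf

theorem cK_indep {n : ℕ} {ι : Type*} (f : ι → H n) (hf : LinearIndependent k f) :
    LinearIndependent K fun j => cK b R K (f j) := by
  exact U2_li (b n) (cK b R K) _ U2_cadd U2_csmul (U2_cbas n) f hf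

/-- Proof. `GK K T F` is the span of the `TK K T (f j)`, `f` a basis of `F` (semilinearity `T.smul`, `T.add`). -/
theorem finrank_GK (T : Tr C mu b R) {n : ℕ} (F : Submodule k (H n)) :
    Module.finrank K (GK K T F) = Module.finrank k F := by
  exact U2_fr (b n) (TK K T) _ (U2_Tadd T) (U2_Tsmul T) (U2_Tbas T n) F

theorem finrank_QK {n : ℕ} (P : Submodule k (H n)) : Module.finrank K (QK b R K P) = Module.finrank k P := by
  exact U2_fr (b n) (cK b R K) _ U2_cadd U2_csmul (U2_cbas n) P

theorem GK_top (T : Tr C mu b R) (n : ℕ) : GK K T (⊤ : Submodule k (H n)) = ⊤ := by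
  exact U2_top (b n) (TK K T) _ (U2_Tadd T) (U2_Tsmul T) (U2_Tbas T n)

theorem QK_top (n : ℕ) : QK b R K (⊤ : Submodule k (H n)) = ⊤ := by
  exact U2_top (b n) (cK b R K) _ U2_cadd U2_csmul (U2_cbas n)

end MPadcTT
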