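import Pool.Agent.Lib.MP_adc574_ag_TT.U2

/-! LEAF U3: `Opp` by subspaces over `K` -/

set_option autoImplicit false

namespace MPadcTT

universe u v w

variable {k : Type u} [Field k] {H : ℕ → Type v} [∀ n, AddCommGroup (H n)] [∀ n, Module k (H n)]
  {C : ∀ n, Cn k (H n)} {mu : ∀ n m, H n →ₗ[k] H m →ₗ[k] H (n + m)} {β : ℕ → Type} [∀ n, Fintype (β n)]
  {b : ∀ n, Module.Basis (β n) k (H n)} {R : Type w} [CommRing R] [IsDomain R] [Algebra k R] (K : Type w) [Field K]
  [Algebra R K] [IsFractionRing R K]

/-- The functional `lam` over `K`. -/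
private noncomputable def U3_phi (b : ∀ n, Module.Basis (β n) k (H n)) (R : Type w) [CommRing R] [Algebra k R]
    (K : Type w) [Field K] [Algebra R K] {n : ℕ} (lam : H n →ₗ[k] k) : (β n → K) →ₗ[K] K :=
  ∑ l, (algebraMap R K (algebraMap k R (lam (b n l)))) • (LinearMap.proj l : (β n → K) →ₗ[K] K)

omit [IsDomain R] [IsFractionRing R K] in
private theorem U3_phi_apply {n : ℕ} (lam : H n →ₗ[k] k) (y : β n → K) :
    U3_phi b R K lam y = ∑ l, algebraMap R K (algebraMap k R (lam (b n l))) * y l := by
  unfold U3_phi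
  rw [LinearMap.sum_apply]
  exact Finset.sum_congr rfl fun l _ => rfl

omit [IsDomain R] [IsFractionRing R K] in
private theorem U3_phi_TK (T : Tr C mu b R) {n : ℕ} (lam : H n →ₗ[k] k) (x : H n) :
    U3_phi b R K lam (TK K T x) = algebraMap R K (ev b lam (T.T n x)) := by
  rw [U3_phi_apply]
  unfold ev
  rw [map_sum]
  exact Finset.sum_congr rfl fun l _ => (map_mul _ _ _).symm

omit [IsDomain R] [IsFractionRing R K] in
private theorem U3_phi_cK {n : ℕ} (lam : H n →ₗ[k] k) (x : H n) :
    U3_phi b R K lam (cK b R K x) = algebraMap R K (algebraMap k R (lam x)) := by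
  rw [U3_phi_apply]
  have h1 : lam x = ∑ l, lam (b n l) * (b n).repr x l := by
    conv_lhs => rw [← (b n).sum_repr x]
    rw [map_sum]
    exact Finset.sum_congr rfl fun l _ => by rw [map_smul, smul_eq_mul, mul_comm]
  rw [h1, map_sum, map_sum]
  exact Finset.sum_congr rfl fun l _ => by rw [map_mul, map_mul]; rfl

omit [IsDomain R] [IsFractionRing R K] in
/-- A functional which vanishes on `P` vanishes on `QK P`. -/
private theorem U3_QK {n : ℕ} {lam : H n →ₗ[k] k} {P : Submodule k (H n)} (h : ∀ x ∈ P, lam x = 0)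
    {y : β n → K} (hy : y ∈ QK b R K P) : U3_phi b R K lam y = 0 := by
  have h1 : QK b R K P ≤ LinearMap.ker (U3_phi b R K lam) := by
    unfold QK
    rw [Submodule.span_le]
    rintro _ ⟨x, hx, rfl⟩
    show cK b R K x ∈ LinearMap.ker (U3_phi b R K lam)
    rw [LinearMap.mem_ker, U3_phi_cK, h x hx, map_zero, map_zero]
  exact LinearMap.mem_ker.1 (h1 hy)

omit [IsDomain R] [IsFractionRing R K] in
/-- The matrix of the functionals over `K` at a combination. -/
private theorem U3_mulVec (T : Tr C mu b R) {n : ℕ} {ι : Type} [Fintype ι] (lam : ι → H n →ₗ[k] k)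
    (f : ι → H n) (a : ι → K) (i : ι) :
    U3_phi b R K (lam i) (∑ j, a j • TK K T (f j)) =
      (((Matrix.of fun i j => ev b (lam i) (T.T n (f j))) : Matrix ι ι R).map (algebraMap R K)).mulVec a i := by
  rw [map_sum]
  unfold Matrix.mulVec dotProduct
  refine Finset.sum_congr rfl fun j _ => ?_
  rw [map_smul, smul_eq_mul, U3_phi_TK, mul_comm]
  rfl

/-- Proof. `T.Ps lam f ≠ 0` : the `K`-linear functionals `y ↦ ev b (lam i) y` vanish on `QK P`; the `TK (f j)` are linearly independent modulo their common kernel, so they form a basis of `GK F` (`finrank_GK`) and an element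
`∑ a_j TK (f j)` of `QK P` has `M a = 0`, `M` the matrix with `det M ≠ 0` in `K` (`Matrix.eq_zero_of_mulVec_eq_zero`). -/
theorem disj_of_opp (T : Tr C mu b R) {n : ℕ} {F P : Submodule k (H n)} (h : Opp T F P) :
    GK K T F ⊓ QK b R K P = ⊥ := by
  classical
  obtain ⟨ι, _, _, lam, f, hP, hF, hcard, hdet⟩ := h
  have hinj := IsFractionRing.injective R K
  have hMdet : (((Matrix.of fun i j => ev b (lam i) (T.T n (f j))) : Matrix ι ι R).map
      (algebraMap R K)).det ≠ 0 := by
    rw [← RingHom.mapMatrix_apply, ← RingHom.map_det]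
    exact fun h0 => hdet (hinj (by rw [map_zero]; exact h0))
  have key : ∀ a : ι → K, (∀ i, U3_phi b R K (lam i) (∑ j, a j • TK K T (f j)) = 0) → a = 0 := by
    intro a ha
    apply Matrix.eq_zero_of_mulVec_eq_zero hMdet
    funext i
    rw [← U3_mulVec K T lam f a i, ha i]
    rfl
  have hli : LinearIndependent K fun j => TK K T (f j) := by
    rw [Fintype.linearIndependent_iff]
    intro a ha i
    have h1 := key a fun i => by rw [ha, map_zero]
    rw [h1]
    rfl
  have hspan : Submodule.span K (Set.range fun j => TK K T (f j)) = GK K T F := by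
    apply Submodule.eq_of_le_of_finrank_eq
    · rw [Submodule.span_le]
      rintro _ ⟨j, rfl⟩
      exact Submodule.subset_span ⟨f j, hF j, rfl⟩
    · rw [finrank_span_eq_card hli, finrank_GK, hcard]
  rw [Submodule.eq_bot_iff]
  rintro y ⟨hy1, hy2⟩
  rw [← hspan] at hy1
  obtain ⟨a, rfl⟩ := (Submodule.mem_span_range_iff_exists_fun K).1 hy1
  have h1 := key a fun i => U3_QK K (hP i) hy2
  rw [h1]
  exact Finset.sum_eq_zero fun j _ => by rw [Pi.zero_apply, zero_smul]

/-- Proof. Let `f` be a basis of `F`, `lam` a basis of the functionals on `H n` which vanish on `P` (dimension `finrank H - finrank P = finrank F`; for instance the coordinates of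
`H n ⧸ P`). The common kernel of the `K`-functionals `ev b (lam i)` is `QK P` (dimensions), so `∑ a_j TK (f j)` with `M a = 0` is in `GK F ⊓ QK P = ⊥`, so `a = 0` (`TK_indep`): `det M ≠ 0`. -/
theorem opp_of_disj (T : Tr C mu b R) {n : ℕ} {F P : Submodule k (H n)}
    (hd : Module.finrank k P + Module.finrank k F = Module.finrank k (H n))
    (h : GK K T F ⊓ QK b R K P = ⊥) : Opp T F P := by
  classical
  have hfin : Module.Finite k (H n) := Module.Finite.of_basis (b n)
  have hq : Module.finrank k (H n ⧸ P) = Module.finrank k F := by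
    have h1 := Submodule.finrank_quotient_add_finrank P
    omega
  let Bq : Module.Basis (Fin (Module.finrank k F)) k (H n ⧸ P) :=
    (Module.finBasis k (H n ⧸ P)).reindex (finCongr hq)
  let lam : Fin (Module.finrank k F) → H n →ₗ[k] k := fun i => (Bq.coord i).comp P.mkQ
  let f : Fin (Module.finrank k F) → H n := fun j => (Module.finBasis k F j : H n)
  have hlam : ∀ i, ∀ x ∈ P, lam i x = 0 := by
    intro i x hx
    have h1 : P.mkQ x = 0 := by
      rw [Submodule.mkQ_apply, Submodule.Quotient.mk_eq_zero]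
      exact hx
    show Bq.coord i (P.mkQ x) = 0
    rw [h1, map_zero]
  have hf : LinearIndependent k f := (Module.finBasis k F).linearIndependent.map' F.subtype (Submodule.ker_subtype F)
  refine ⟨Fin (Module.finrank k F), inferInstance, inferInstance, lam, f, hlam,
    fun j => (Module.finBasis k F j).2, Fintype.card_fin _, fun h0 => ?_⟩
  -- a vector in the kernel
  have hMdet : (((Matrix.of fun i j => ev b (lam i) (T.T n (f j))) :
      Matrix (Fin (Module.finrank k F)) (Fin (Module.finrank k F)) R).map (algebraMap R K)).det = 0 := by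
    rw [← RingHom.mapMatrix_apply, ← RingHom.map_det]
    have h1 : (Matrix.of fun i j => ev b (lam i) (T.T n (f j))).det = 0 := h0
    rw [h1, map_zero]
  obtain ⟨a, ha0, ha⟩ := Matrix.exists_mulVec_eq_zero_iff.2 hMdet
  have hphi : ∀ i, U3_phi b R K (lam i) (∑ j, a j • TK K T (f j)) = 0 := by
    intro i
    rw [U3_mulVec K T lam f a i, ha]
    rfl
  -- representatives of the basis of the quotient
  choose q hqm using fun i => P.mkQ_surjective (Bq i)
  have hdec : ∀ x : H n, x - ∑ i, lam i x • q i ∈ P := by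
    intro x
    rw [← Submodule.Quotient.mk_eq_zero, ← Submodule.mkQ_apply, map_sub, map_sum]
    have h1 : ∑ i, P.mkQ (lam i x • q i) = P.mkQ x := by
      have h2 := Bq.sum_repr (P.mkQ x)
      rw [← h2]
      refine Finset.sum_congr rfl fun i _ => ?_
      rw [map_smul, hqm i]
      rfl
    rw [h1, sub_self]
  let L : (β n → K) →ₗ[K] (β n → K) :=
    LinearMap.id - ∑ i, (U3_phi b R K (lam i)).smulRight (cK b R K (q i))
  have hL : ∀ y, L y = y - ∑ i, U3_phi b R K (lam i) y • cK b R K (q i) := by
    intro y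
    show (LinearMap.id - ∑ i, (U3_phi b R K (lam i)).smulRight (cK b R K (q i)) : (β n → K) →ₗ[K] (β n → K)) y = _
    rw [LinearMap.sub_apply, LinearMap.sum_apply]
    rfl
  have hcK : ∀ x : H n, L (cK b R K x) = cK b R K (x - ∑ i, lam i x • q i) := by
    intro x
    rw [hL]
    funext l
    rw [Pi.sub_apply, Finset.sum_apply]
    show algebraMap R K (algebraMap k R ((b n).repr x l)) -
      ∑ i, (U3_phi b R K (lam i) (cK b R K x) • cK b R K (q i)) l =
        algebraMap R K (algebraMap k R ((b n).repr (x - ∑ i, lam i x • q i) l))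
    rw [map_sub, map_sum, Finsupp.sub_apply, Finsupp.finsetSum_apply, map_sub, map_sub, map_sum, map_sum]
    congr 1
    refine Finset.sum_congr rfl fun i _ => ?_
    rw [U3_phi_cK, map_smul, Finsupp.smul_apply, smul_eq_mul, map_mul, map_mul]
    rfl
  have htop : (⊤ : Submodule K (β n → K)) ≤ Submodule.comap L (QK b R K P) := by
    rw [← QK_top (b := b) (R := R) K n]
    unfold QK
    rw [Submodule.span_le]
    rintro _ ⟨x, -, rfl⟩
    show L (cK b R K x) ∈ Submodule.span K (cK b R K '' (P : Set (H n)))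
    rw [hcK x]
    exact Submodule.subset_span ⟨_, hdec x, rfl⟩
  have hy2 : ∑ j, a j • TK K T (f j) ∈ QK b R K P := by
    have h1 : L (∑ j, a j • TK K T (f j)) ∈ QK b R K P := htop Submodule.mem_top
    have h2 : ∑ i, U3_phi b R K (lam i) (∑ j, a j • TK K T (f j)) • cK b R K (q i) = 0 :=
      Finset.sum_eq_zero fun i _ => by rw [hphi i, zero_smul]
    rw [hL, h2, sub_zero] at h1
    exact h1
  have hy1 : ∑ j, a j • TK K T (f j) ∈ GK K T F :=
    Submodule.sum_mem _ fun j _ => Submodule.smul_mem _ _
      (Submodule.subset_span ⟨f j, (Module.finBasis k F j).2, rfl⟩)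
  have hy : ∑ j, a j • TK K T (f j) = 0 := by
    have h1 : ∑ j, a j • TK K T (f j) ∈ GK K T F ⊓ QK b R K P := ⟨hy1, hy2⟩
    rw [h] at h1
    exact (Submodule.mem_bot K).1 h1
  apply ha0
  funext j
  exact Fintype.linearIndependent_iff.1 (TK_indep K T f hf) a hy j

end MPadcTT
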