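import Pool.Agent.Lib.MP_adc574_ag_TT.U1
import Pool.Agent.Lib.MP_adc574_ag_TT.U3

/-! LEAF U4: from `H 1` to all `H n` -/

set_option autoImplicit false

namespace MPadcTT

universe u v w

variable {k : Type u} [Field k] {H : ℕ → Type v} [∀ n, AddCommGroup (H n)] [∀ n, Module k (H n)]
  {C : ∀ n, Cn k (H n)} {mu : ∀ n m, H n →ₗ[k] H m →ₗ[k] H (n + m)} {β : ℕ → Type} [∀ n, Fintype (β n)]
  {b : ∀ n, Module.Basis (β n) k (H n)} {R : Type w} [CommRing R] [IsDomain R] [Algebra k R]

private theorem U4_GK_mono (K : Type w) [Field K] [Algebra R K] (T : Tr C mu b R) {n : ℕ} {F F' : Submodule k (H n)}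
    (h : F ≤ F') : GK K T F ≤ GK K T F' :=
  Submodule.span_mono (Set.image_mono (SetLike.coe_subset_coe.2 h))

private theorem U4_QK_mono (K : Type w) [Field K] [Algebra R K] {n : ℕ} {P P' : Submodule k (H n)}
    (h : P ≤ P') : QK b R K P ≤ QK b R K P' :=
  Submodule.span_mono (Set.image_mono (SetLike.coe_subset_coe.2 h))

private theorem U4_cK_add (K : Type w) [Field K] [Algebra R K] {n : ℕ} (x y : H n) :
    cK b R K (x + y) = cK b R K x + cK b R K y := by
  funext i
  simp [cK]

private theorem U4_cK_zero (K : Type w) [Field K] [Algebra R K] {n : ℕ} :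
    cK b R K (0 : H n) = 0 := by
  funext i
  simp [cK]

private theorem U4_cK_smul (K : Type w) [Field K] [Algebra R K] {n : ℕ} (c : k) (x : H n) :
    cK b R K (c • x) = algebraMap R K (algebraMap k R c) • cK b R K x := by
  funext i
  simp [cK]

/-- the vectors of `H n` which are in `N` over `K` -/
private def U4_pre (K : Type w) [Field K] [Algebra R K] (b : ∀ n, Module.Basis (β n) k (H n)) (n : ℕ)
    (N : Submodule K (β n → K)) : Submodule k (H n) where
  carrier := {x | cK b R K x ∈ N}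
  add_mem' := by
    intro x y hx hy
    show cK b R K (x + y) ∈ N
    rw [U4_cK_add]
    exact N.add_mem hx hy
  zero_mem' := by
    show cK b R K (0 : H n) ∈ N
    rw [U4_cK_zero]
    exact N.zero_mem
  smul_mem' := by
    intro c x hx
    show cK b R K (c • x) ∈ N
    rw [U4_cK_smul]
    exact N.smul_mem _ hx

/-- Proof. `K = FractionRing R`, `N n = ⨆ i, GK (Fl n i) ⊓ QK (P n i)`. `N` is closed under `muK` (`muK_GK`, `muK_QK`, `Submodule.iSup_induction`, `exists_muK`).
`P n i = ⊤` for `n ≤ i` (`dim`, `top`). `N 0 = ⊤`: `i = 0`. `N 1 = ⊤`: `GK (Fl 1 1) ⊔ QK (P 1 0) = ⊤` (`disj_of_opp`, dimensions `finrank_GK`, `finrank_QK`), `GK (Fl 1 1) ≤ GK (Fl 1 1) ⊓ QK (P 1 1)`,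
`QK (P 1 0) ≤ GK (Fl 1 0) ⊓ QK (P 1 0)`. Then `{x : H n | cK x ∈ N n}` satisfies the hypotheses of `gen` (`muK_cK`), so it is `⊤`, and `N n = ⊤` (`QK_top`). `N n ≤ GK (Fl n (i + 1)) ⊔ QK (P n i)` (for `j ≤ i`: `P n j ≤ P n i`; for `j > i`: `Fl n j ≤ Fl n (i + 1)`),
so by dimensions `GK (Fl n (i + 1)) ⊓ QK (P n i) = ⊥`: `opp_of_disj`. -/
theorem opp_all (T : Tr C mu b R) {Fl P : ∀ n, ℕ → Submodule k (H n)}
    (anti : ∀ n i, Fl n (i + 1) ≤ Fl n i) (zero : ∀ n, Fl n 0 = ⊤) (top : ∀ n i, n < i → Fl n i = ⊥)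
    (mulF : ∀ n m i j, ∀ x ∈ Fl n i, ∀ y ∈ Fl m j, mu n m x y ∈ Fl (n + m) (i + j))
    (mono : ∀ n i, P n i ≤ P n (i + 1))
    (mulP : ∀ n m i j, ∀ x ∈ P n i, ∀ y ∈ P m j, mu n m x y ∈ P (n + m) (i + j))
    (dim : ∀ n i, Module.finrank k (P n i) + Module.finrank k (Fl n (i + 1)) = Module.finrank k (H n))
    (gen : ∀ N : ∀ n, Submodule k (H n), N 0 = ⊤ → N 1 = ⊤ →
      (∀ n m, ∀ x ∈ N n, ∀ y ∈ N m, mu n m x y ∈ N (n + m)) → ∀ n, N n = ⊤)
    (h1 : Opp T (Fl 1 1) (P 1 0)) (n i : ℕ) : Opp T (Fl n (i + 1)) (P n i) := by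
  classical
  let K := FractionRing R
  have hfin : ∀ n, Module.Finite k (H n) := fun n => Module.Finite.of_basis (b n)
  have hcard : ∀ n, Module.finrank K (β n → K) = Module.finrank k (H n) := fun n => by
    rw [Module.finrank_fintype_fun_eq_card, Module.finrank_eq_card_basis (b n)]
  have monoP : ∀ n, Monotone (P n) := fun n => monotone_nat_of_le_succ (mono n)
  have antiF : ∀ n, Antitone (Fl n) := fun n => antitone_nat_of_succ_le (anti n)
  have Ptop : ∀ n i, n ≤ i → P n i = ⊤ := by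
    intro n i hni
    have := hfin n
    have h2 := dim n i
    rw [top n (i + 1) (by omega), finrank_bot, add_zero] at h2
    exact Submodule.eq_top_of_finrank_eq h2
  let N : ∀ n, Submodule K (β n → K) := fun n => ⨆ i, GK K T (Fl n i) ⊓ QK b R K (P n i)
  have hle : ∀ n i, GK K T (Fl n i) ⊓ QK b R K (P n i) ≤ N n := fun n i =>
    le_iSup (fun i => GK K T (Fl n i) ⊓ QK b R K (P n i)) i
  have Gtop : ∀ n, GK K T (Fl n 0) = ⊤ := fun n => by
    rw [zero n]
    exact GK_top K T n
  have Qtop : ∀ n i, n ≤ i → QK b R K (P n i) = ⊤ := fun n i hni => by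
    rw [Ptop n i hni]
    exact QK_top K n
  have Nmul : ∀ n m, ∀ y ∈ N n, ∀ z ∈ N m, muK mu b R K n m y z ∈ N (n + m) := by
    intro n m y hy z hz
    obtain ⟨M, hM⟩ := exists_muK (mu := mu) (b := b) (R := R) K n m
    rw [← hM]
    have step : ∀ i, ∀ y ∈ GK K T (Fl n i) ⊓ QK b R K (P n i), M y z ∈ N (n + m) := by
      intro i y hy
      refine Submodule.iSup_induction (fun j => GK K T (Fl m j) ⊓ QK b R K (P m j))
        (motive := fun z => M y z ∈ N (n + m)) hz ?_ ?_ ?_
      · intro j z hz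
        rw [hM]
        refine hle (n + m) (i + j) ⟨?_, ?_⟩
        · exact muK_GK K T (mulF n m i j) hy.1 hz.1
        · exact muK_QK K (mulP n m i j) hy.2 hz.2
      · rw [map_zero]
        exact Submodule.zero_mem _
      · intro z z' h2 h3
        rw [map_add]
        exact Submodule.add_mem _ h2 h3
    refine Submodule.iSup_induction (fun j => GK K T (Fl n j) ⊓ QK b R K (P n j))
      (motive := fun y => M y z ∈ N (n + m)) hy step ?_ ?_
    · rw [map_zero, LinearMap.zero_apply]
      exact Submodule.zero_mem _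
    · intro y y' h2 h3
      rw [map_add, LinearMap.add_apply]
      exact Submodule.add_mem _ h2 h3
  have N0 : N 0 = ⊤ := by
    refine top_le_iff.1 ((le_of_eq ?_).trans (hle 0 0))
    rw [Gtop, Qtop 0 0 le_rfl, top_inf_eq]
  have N1 : N 1 = ⊤ := by
    have h2 : GK K T (Fl 1 1) ≤ N 1 := by
      refine le_trans (le_of_eq ?_) (hle 1 1)
      rw [Qtop 1 1 le_rfl, inf_top_eq]
    have h3 : QK b R K (P 1 0) ≤ N 1 := by
      refine le_trans (le_of_eq ?_) (hle 1 0)
      rw [Gtop, top_inf_eq]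
    have h4 : GK K T (Fl 1 1) ⊔ QK b R K (P 1 0) = ⊤ := by
      apply Submodule.eq_top_of_finrank_eq
      have h5 := Submodule.finrank_sup_add_finrank_inf_eq (GK K T (Fl 1 1)) (QK b R K (P 1 0))
      rw [disj_of_opp K T h1, finrank_bot, add_zero, finrank_GK, finrank_QK] at h5
      rw [h5, hcard, ← dim 1 0, add_comm]
    exact top_le_iff.1 (h4 ▸ sup_le h2 h3)
  have Nall : ∀ n, N n = ⊤ := by
    intro n
    have h2 := gen (fun n => U4_pre (R := R) K b n (N n))
      (by
        refine top_le_iff.1 fun x _ => ?_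
        show cK b R K x ∈ N 0
        rw [N0]
        exact Submodule.mem_top)
      (by
        refine top_le_iff.1 fun x _ => ?_
        show cK b R K x ∈ N 1
        rw [N1]
        exact Submodule.mem_top)
      (by
        intro n m x hx y hy
        show cK b R K (mu n m x y) ∈ N (n + m)
        rw [← muK_cK (mu := mu) (b := b) (R := R) K x y]
        exact Nmul n m _ hx _ hy) n
    refine top_le_iff.1 ?_
    rw [← QK_top (b := b) (R := R) K n]
    refine Submodule.span_le.2 ?_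
    rintro _ ⟨x, -, rfl⟩
    have h3 : x ∈ U4_pre (R := R) K b n (N n) := by
      have h4 : U4_pre (R := R) K b n (N n) = ⊤ := h2
      rw [h4]
      exact Submodule.mem_top
    exact h3
  have h2 : N n ≤ GK K T (Fl n (i + 1)) ⊔ QK b R K (P n i) := by
    refine iSup_le fun j => ?_
    rcases Nat.lt_or_ge i j with hij | hij
    · exact inf_le_left.trans ((U4_GK_mono K T (antiF n (by omega))).trans le_sup_left)
    · exact inf_le_right.trans ((U4_QK_mono K (monoP n hij)).trans le_sup_right)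
  rw [Nall n] at h2
  have h3 := Submodule.finrank_sup_add_finrank_inf_eq (GK K T (Fl n (i + 1))) (QK b R K (P n i))
  rw [top_le_iff.1 h2, finrank_top, finrank_GK, finrank_QK, hcard, add_comm (Module.finrank k (Fl n (i + 1))),
    dim n i] at h3
  have h4 : Module.finrank K (GK K T (Fl n (i + 1)) ⊓ QK b R K (P n i) : Submodule K (β n → K)) = 0 := by omega
  exact opp_of_disj K T (dim n i) (Submodule.finrank_eq_zero.1 h4)

end MPadcTT
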