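import Pool.Agent.Lib.MP_adc574_ag_TT.D0

/-! LEAF V0: horizontal spaces of alternating forms -/

set_option autoImplicit false

namespace MPadcTT

universe u v w

variable {k : Type u} [Field k] {V : Type v} [AddCommGroup V] [Module k V]

/-- The space `W` of alternating forms is horizontal. -/
def Hor (C : Cn k V) {r : ℕ} (W : Submodule k (V [⋀^Fin r]→ₗ[k] k)) : Prop :=
  ∀ D : Derivation ℤ k k, ∀ ω ∈ W, ∃ ω' ∈ W, ∀ x : Fin r → V,
    ω' x = D (ω x) - ∑ l, ω (Function.update x l (C.c D (x l)))

/-- The derivative of a function of tuples. -/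
def dv {ι : Type} [Fintype ι] [DecidableEq ι] (C : Cn k V) (D : Derivation ℤ k k) (Ψ : (ι → V) → k) : (ι → V) → k :=
  fun x => D (Ψ x) - dl (C.c D) Ψ x

/-- Proof. Induction on `w` for all `x`: `D` is additive (`map_sum`), `dl` is additive in `Ψ`; `w = []` is the definition of `dv`. -/
theorem leib_dls {ι : Type} [Fintype ι] [DecidableEq ι] (C : Cn k V) (D : Derivation ℤ k k)
    (w : List (Derivation ℤ k k)) (Ψ : (ι → V) → k) (x : ι → V) :
    D (dls C w Ψ x) = dls C w (dv C D Ψ) x + dls C (w ++ [D]) Ψ x := by
  induction w generalizing x with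
  | nil =>
    rw [List.nil_append, dls_cons, dls_nil, dls_nil]
    unfold dv
    rw [sub_add_cancel]
  | cons E w ih =>
    rw [List.cons_append, dls_cons, dls_cons, dls_cons, dl_apply, dl_apply, dl_apply, map_sum,
      ← Finset.sum_add_distrib]
    exact Finset.sum_congr rfl fun j _ => ih _

/-- Proof. Induction on `w` from the end (`List.reverseRecOn`) for all `ω` in `W`: `leib_dls` and `dv C D ω = ω'`. -/
theorem hor_dls (C : Cn k V) {r : ℕ} {W : Submodule k (V [⋀^Fin r]→ₗ[k] k)} (hW : Hor C W) (x : Fin r → V)
    (h : ∀ ω ∈ W, ω x = 0) (w : List (Derivation ℤ k k)) :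
    ∀ ω ∈ W, dls C w (fun y : Fin r → V => ω y) x = 0 := by
  induction w using List.reverseRecOn with
  | nil => exact h
  | append_singleton w D ih =>
    intro ω hω
    obtain ⟨ω', hω', h1⟩ := hW D ω hω
    have h2 := leib_dls C D w (fun y : Fin r → V => ω y) x
    have h3 : dv C D (fun y : Fin r → V => ω y) = fun y : Fin r → V => ω' y := by
      funext y
      exact (h1 y).symm
    rw [h3, ih ω' hω', ih ω hω, map_zero, zero_add] at h2
    exact h2.symm

private def V0_fun (C : Cn k V) (D : Derivation ℤ k k) {r : ℕ} (ω : V [⋀^Fin r]→ₗ[k] k) (x : Fin r → V) : k :=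
  D (ω x) - ∑ l, ω (Function.update x l (C.c D (x l)))

private theorem V0_upd_self {r : ℕ} (m : Fin r → V) (i : Fin r) (c : V → V) (x : V) :
    Function.update (Function.update m i x) i (c (Function.update m i x i)) =
      Function.update m i (c x) := by
  rw [Function.update_self, Function.update_idem]

private theorem V0_upd_ne {r : ℕ} (m : Fin r → V) (i : Fin r) (c : V → V) (x : V) {l : Fin r} (h : l ≠ i) :
    Function.update (Function.update m i x) l (c (Function.update m i x l)) =
      Function.update (Function.update m l (c (m l))) i x := by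
  rw [Function.update_of_ne h, Function.update_comm h.symm]

/-- Proof. `D (ω x) - ∑ l, ω (update x l (C.c D (x l)))` is multilinear over `k` (Leibniz rules of `D` and `C`) and alternating (two equal arguments: the terms cancel by `ω.map_swap` or `map_update..`, or they vanish). -/
theorem exists_dform (C : Cn k V) (D : Derivation ℤ k k) {r : ℕ} (ω : V [⋀^Fin r]→ₗ[k] k) :
    ∃ ω' : V [⋀^Fin r]→ₗ[k] k, ∀ x : Fin r → V, ω' x = D (ω x) - ∑ l, ω (Function.update x l (C.c D (x l))) := by
  classical
  have hadd : ∀ (m : Fin r → V) (i : Fin r) (x y : V),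
      V0_fun C D ω (Function.update m i (x + y)) =
        V0_fun C D ω (Function.update m i x) + V0_fun C D ω (Function.update m i y) := by
    intro m i x y
    unfold V0_fun
    have h1 : ∑ l, ω (Function.update (Function.update m i (x + y)) l
        (C.c D (Function.update m i (x + y) l))) =
        ∑ l, ω (Function.update (Function.update m i x) l (C.c D (Function.update m i x l))) +
        ∑ l, ω (Function.update (Function.update m i y) l (C.c D (Function.update m i y l))) := by
      rw [← Finset.sum_add_distrib]
      refine Finset.sum_congr rfl fun l _ => ?_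
      rcases eq_or_ne l i with rfl | hl
      · rw [V0_upd_self, V0_upd_self, V0_upd_self, C.add, ω.map_update_add]
      · rw [V0_upd_ne _ _ _ _ hl, V0_upd_ne _ _ _ _ hl, V0_upd_ne _ _ _ _ hl, ω.map_update_add]
    rw [h1, ω.map_update_add, map_add]
    ring
  have hsmul : ∀ (m : Fin r → V) (i : Fin r) (a : k) (x : V),
      V0_fun C D ω (Function.update m i (a • x)) = a • V0_fun C D ω (Function.update m i x) := by
    intro m i a x
    unfold V0_fun
    have h1 : ∑ l, ω (Function.update (Function.update m i (a • x)) l
        (C.c D (Function.update m i (a • x) l))) =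
        a * ∑ l, ω (Function.update (Function.update m i x) l (C.c D (Function.update m i x l))) +
        D a * ω (Function.update m i x) := by
      have h2 : ∀ l, ω (Function.update (Function.update m i (a • x)) l
          (C.c D (Function.update m i (a • x) l))) =
          a * ω (Function.update (Function.update m i x) l (C.c D (Function.update m i x l))) +
            (if l = i then D a * ω (Function.update m i x) else 0) := by
        intro l
        rcases eq_or_ne l i with rfl | hl
        · rw [V0_upd_self, V0_upd_self, C.leib, ω.map_update_add, ω.map_update_smul,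
            ω.map_update_smul, if_pos rfl, smul_eq_mul, smul_eq_mul]
        · rw [V0_upd_ne _ _ _ _ hl, V0_upd_ne _ _ _ _ hl, ω.map_update_smul, if_neg hl, add_zero,
            smul_eq_mul]
      rw [Finset.sum_congr rfl fun l _ => h2 l, Finset.sum_add_distrib, ← Finset.mul_sum,
        Finset.sum_ite_eq' Finset.univ i, if_pos (Finset.mem_univ i)]
    rw [h1, ω.map_update_smul, smul_eq_mul, smul_eq_mul, Derivation.leibniz, smul_eq_mul, smul_eq_mul]
    ring
  let M : MultilinearMap k (fun _ : Fin r => V) k := MultilinearMap.mk' (V0_fun C D ω) hadd hsmul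
  refine ⟨{ M with map_eq_zero_of_eq' := ?_ }, fun x => rfl⟩
  intro m i j hij hne
  change V0_fun C D ω m = 0
  unfold V0_fun
  rw [ω.map_eq_zero_of_eq m hij hne, map_zero, zero_sub, neg_eq_zero]
  rw [← Finset.add_sum_erase Finset.univ _ (Finset.mem_univ i),
    ← Finset.add_sum_erase _ _ (Finset.mem_erase.2 ⟨hne.symm, Finset.mem_univ j⟩)]
  have h0 : ∑ l ∈ (Finset.univ.erase i).erase j, ω (Function.update m l (C.c D (m l))) = 0 := by
    refine Finset.sum_eq_zero fun l hl => ?_
    rw [Finset.mem_erase, Finset.mem_erase] at hl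
    refine ω.map_eq_zero_of_eq _ ?_ hne
    rw [Function.update_of_ne hl.2.1.symm, Function.update_of_ne hl.1.symm]
    exact hij
  rw [h0, add_zero]
  have h1 : Function.update m j (C.c D (m j)) = Function.update m i (C.c D (m i)) ∘ Equiv.swap i j := by
    funext l
    rw [Function.comp_apply]
    rcases eq_or_ne l i with rfl | hli
    · rw [Equiv.swap_apply_left, Function.update_of_ne hne, Function.update_of_ne hne.symm, hij]
    · rcases eq_or_ne l j with rfl | hlj
      · rw [Equiv.swap_apply_right, Function.update_self, Function.update_self, hij]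
      · rw [Equiv.swap_apply_of_ne_of_ne hli hlj, Function.update_of_ne hlj,
          Function.update_of_ne hli]
  rw [h1, ω.map_swap _ hne, add_neg_cancel]

private theorem V0_dls_add {ι : Type} [Fintype ι] [DecidableEq ι] (C : Cn k V) (w : List (Derivation ℤ k k))
    (Ψ Φ : (ι → V) → k) : dls C w (Ψ + Φ) = dls C w Ψ + dls C w Φ := by
  induction w with
  | nil => rfl
  | cons E w ih =>
    rw [dls_cons, dls_cons, dls_cons, ih]
    funext x
    rw [Pi.add_apply, dl_apply, dl_apply, dl_apply, ← Finset.sum_add_distrib]
    rfl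

private theorem V0_dls_smul {ι : Type} [Fintype ι] [DecidableEq ι] (C : Cn k V) (w : List (Derivation ℤ k k))
    (a : k) (Ψ : (ι → V) → k) : dls C w (a • Ψ) = a • dls C w Ψ := by
  induction w with
  | nil => rfl
  | cons E w ih =>
    rw [dls_cons, dls_cons, ih]
    funext x
    rw [Pi.smul_apply, dl_apply, dl_apply, Finset.smul_sum]
    rfl

/-- The forms `ω` with `dls C w ω f = 0` for all `w` are a horizontal space. Proof: `exists_dform`, `leib_dls`; `D 0 = 0`. -/
theorem exists_horf (C : Cn k V) {r : ℕ} (f : Fin r → V) : ∃ W : Submodule k (V [⋀^Fin r]→ₗ[k] k), Hor C W ∧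
    ∀ ω, ω ∈ W ↔ ∀ w, dls C w (fun y : Fin r → V => ω y) f = 0 := by
  refine ⟨{ carrier := {ω | ∀ w, dls C w (fun y : Fin r → V => ω y) f = 0}
            add_mem' := ?_
            zero_mem' := ?_
            smul_mem' := ?_ }, ?_, fun ω => Iff.rfl⟩
  · intro ω ω' h h' w
    have h1 := V0_dls_add C w (fun y : Fin r → V => ω y) (fun y => ω' y)
    have h2 : (fun y : Fin r → V => (ω + ω') y) = (fun y => ω y) + fun y => ω' y := rfl
    rw [h2, h1, Pi.add_apply, h w, h' w, add_zero]
  · intro w
    have h1 := V0_dls_smul C w (0 : k) (fun _ : Fin r → V => (0 : k))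
    have h2 : (fun y : Fin r → V => (0 : V [⋀^Fin r]→ₗ[k] k) y) = (0 : k) • fun _ => (0 : k) := by
      funext y
      rw [AlternatingMap.zero_apply, Pi.smul_apply, smul_zero]
    rw [h2, h1, Pi.smul_apply, zero_smul]
  · intro a ω h w
    have h1 := V0_dls_smul C w a (fun y : Fin r → V => ω y)
    have h2 : (fun y : Fin r → V => (a • ω) y) = a • fun y => ω y := rfl
    rw [h2, h1, Pi.smul_apply, h w, smul_zero]
  · intro D ω hω
    obtain ⟨ω', h1⟩ := exists_dform C D ω
    refine ⟨ω', fun w => ?_, h1⟩
    have h2 := leib_dls C D w (fun y : Fin r → V => ω y) f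
    have h3 : dv C D (fun y : Fin r → V => ω y) = fun y : Fin r → V => ω' y := by
      funext y
      exact (h1 y).symm
    rw [h3, hω w, hω (w ++ [D]), map_zero, add_zero] at h2
    exact h2.symm

end MPadcTT
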